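import Pool.Agent.helper12.FF.Ident
import Pool.Agent.helper12.RP.Assembly

/-!
# FF-4: the far field record of the plain scheme

`s = shf τ`, `C = e log (Qk s)`, `v = fT (shf s)`, `r = v X`, so `1 - F = (1 - fT s)(1 - χ)`,
`χ = X x`, and the law reads `X x_new = 1 - R1 (1 + qq χ')`.
-/

namespace Pool.Agent.helper12.FF

open Complex ComplexConjugate Set Filter Topology Pool.Agent.helper31.EQ.Y Pool.Agent.helper31.EQ.R
open Pool.Agent.helper12.EQL Pool.Agent.helper12.RP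

noncomputable section

/-- the centre of the plain scheme -/
def cC (e κ : ℝ) (τ : ℂ) : ℂ := (e : ℂ) * log (Qk κ (shf κ τ))

/-- the value of the plain scheme -/
def cv (e κ : ℝ) (τ : ℂ) : ℂ := fT e κ (shf κ (shf κ τ))

/-- the next position of the plain scheme -/
def nxt (e κ : ℝ) (τ χ : ℂ) : ℂ := stepF e κ τ (cC e κ τ) (cv e κ τ * (1 - χ))

/-- the radicand of the plain scheme -/
def rd (e κ : ℝ) (τ χ : ℂ) : ℂ := radF e κ τ (cC e κ τ) (cv e κ τ * (1 - χ))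

/-- `R1 = (1 - f(τ'))/(1 - f(s))` -/
def R1 (e κ : ℝ) (τ τ' : ℂ) : ℂ := (1 - fT e κ τ') / (1 - fT e κ (shf κ τ))

/-- the radius `X` -/
def Xr (κ B R : ℝ) (τ : ℂ) : ℂ := ((B * R / (1 - R) : ℝ) : ℂ) * (shf κ τ + 1)

end

variable {e κ θ : ℝ}

theorem cv_ne (he : 0 < e) (hκ : 0 < κ) {τ : ℂ} (h : 0 < τ.re) : cv e κ τ ≠ 0 :=
  fT_ne he hκ (shf_re hκ (shf_re hκ h.le).le)

/-- **The law.** -/
theorem law_eq (he : 0 < e) (hκ : 0 < κ) {τ τ' X χ' : ℂ} (hτ : 0 < τ.re) (hτ' : 0 < τ'.re)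
    (hX : X ≠ 0) :
    lawF e κ (cC e κ τ) (cv e κ τ) (cv e κ τ * X) τ' (fF (cC e κ τ') (cv e κ τ' * (1 - χ'))) =
      (1 - R1 e κ τ τ' * (1 + qq e κ (shf κ τ') * χ')) / X := by
  have hs := shf_re hκ hτ.le
  have hs' := shf_re hκ hτ'.le
  have hv := cv_ne he hκ hτ (e := e)
  have h1 : fF (cC e κ τ') (cv e κ τ' * (1 - χ')) =
      fT e κ (shf κ τ') * (1 + qq e κ (shf κ τ') * χ') := fF_node he hκ hs'
  have h2 := one_sub_fT he hκ hτ'
  have h3 := one_sub_fT he hκ hs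
  have hQs := Qk_ne hκ hs
  have h4 : exp (cC e κ τ) * Qk κ (shf κ τ) ^ (-(e : ℂ)) = 1 := by
    rw [cpow_def_of_ne_zero hQs, ← exp_add]
    unfold cC
    rw [show (e : ℂ) * log (Qk κ (shf κ τ)) + log (Qk κ (shf κ τ)) * -(e : ℂ) = 0 by ring, exp_zero]
  have h5 : cv e κ τ = exp (cC e κ τ) * (1 - fT e κ (shf κ τ)) := by
    rw [h3, ← mul_assoc, h4, one_mul]
    rfl
  have h6 := one_sub_fT_ne he hκ hs
  have hE := exp_ne_zero (cC e κ τ)
  have h7 : exp (cC e κ τ) * Qk κ τ' ^ (-(e : ℂ)) *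
      (fT e κ (shf κ τ') * (1 + qq e κ (shf κ τ') * χ')) =
      exp (cC e κ τ) * ((1 - fT e κ τ') * (1 + qq e κ (shf κ τ') * χ')) := by
    rw [h2]
    ring
  unfold lawF
  rw [h1, h7, h5]
  unfold R1
  field_simp

theorem shf_conj (hκ : 0 < κ) (τ : ℂ) : shf κ (conj τ) = conj (shf κ τ) := by
  have _ := hκ
  unfold shf
  rw [map_div₀, map_add, map_add, map_mul, map_one, conj_ofReal]

theorem Xr_conj (hκ : 0 < κ) (B R : ℝ) (τ : ℂ) : Xr κ B R (conj τ) = conj (Xr κ B R τ) := by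
  unfold Xr
  rw [map_mul, map_add, map_one, conj_ofReal, shf_conj hκ]

theorem shf_diff (hκ : 0 < κ) {τ : ℂ} (h : 0 < τ.re) : DifferentiableAt ℂ (shf κ) τ := by
  unfold shf
  exact (differentiableAt_id.add_const _).div
    ((differentiableAt_id.const_mul _).const_add _) (shf_den hκ h.le)

theorem fT_diffAt (he : 0 < e) (hκ : 0 < κ) {τ : ℂ} (h : 0 < τ.re) :
    DifferentiableAt ℂ (fT e κ) τ := by
  have hopen : IsOpen {z : ℂ | 0 < z.re} := isOpen_lt continuous_const Complex.continuous_re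
  exact (differentiableOn_fT he hκ τ h).differentiableAt (hopen.mem_nhds h)

theorem cC_diff (hκ : 0 < κ) {τ : ℂ} (h : 0 < τ.re) : DifferentiableAt ℂ (cC e κ) τ := by
  have h1 := shf_diff hκ h
  have h2 := shf_re hκ h.le
  have h3 : DifferentiableAt ℂ (fun z => Qk κ (shf κ z)) τ := by
    unfold Qk
    exact (h1.const_mul _).const_add _
  unfold cC
  exact (h3.clog (Qk_slit hκ h2)).const_mul _

theorem cv_diff (he : 0 < e) (hκ : 0 < κ) {τ : ℂ} (h : 0 < τ.re) :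
    DifferentiableAt ℂ (cv e κ) τ := by
  have h1 := shf_diff hκ h
  have h2 := shf_re hκ h.le
  have h3 := shf_diff hκ h2
  have h4 := shf_re hκ h2.le
  have h5 := fT_diffAt he hκ h4
  have h6 : DifferentiableAt ℂ (fun z => shf κ (shf κ z)) τ := DifferentiableAt.comp τ h3 h1
  exact DifferentiableAt.comp (f := fun z => shf κ (shf κ z)) (g := fT e κ) τ h5 h6

theorem Xr_diff (hκ : 0 < κ) {B R : ℝ} {τ : ℂ} (h : 0 < τ.re) :
    DifferentiableAt ℂ (Xr κ B R) τ := by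
  unfold Xr
  exact ((shf_diff hκ h).add_const _).const_mul _

theorem Qk_conj (κ : ℝ) (τ : ℂ) : Qk κ (conj τ) = conj (Qk κ τ) := by
  unfold Qk
  rw [map_add, map_mul, conj_ofReal, conj_ofReal]

theorem cC_conj (hκ : 0 < κ) {τ : ℂ} (h : 0 < τ.re) : cC e κ (conj τ) = conj (cC e κ τ) := by
  have h2 := Qk_slit hκ (shf_re hκ h.le)
  unfold cC
  rw [shf_conj hκ, Qk_conj, map_mul, conj_ofReal, Complex.log_conj _ (slitPlane_arg_ne_pi h2)]

theorem fT_conj (hκ : 0 < κ) {τ : ℂ} (h : 0 < τ.re) : fT e κ (conj τ) = conj (fT e κ τ) := by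
  unfold fT
  rw [Complex.conj_tsum]
  apply tsum_congr
  intro k
  have h0 : 0 < ((Real.cosh (κ * k) : ℂ) + τ * (Real.sinh (κ * k) : ℂ)).re := by
    rw [Complex.add_re, Complex.ofReal_re, Complex.re_mul_ofReal]
    have h1 := Real.cosh_pos (κ * k)
    have h2 : 0 ≤ Real.sinh (κ * k) := Real.sinh_nonneg_iff.2 (by positivity)
    positivity
  have h1 : ((Real.cosh (κ * k) : ℂ) + τ * (Real.sinh (κ * k) : ℂ)).arg ≠ Real.pi :=
    slitPlane_arg_ne_pi (Complex.mem_slitPlane_iff.2 (Or.inl h0))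
  have h2 : (Real.cosh (κ * k) : ℂ) + conj τ * (Real.sinh (κ * k) : ℂ) =
      conj ((Real.cosh (κ * k) : ℂ) + τ * (Real.sinh (κ * k) : ℂ)) := by
    rw [map_add, map_mul, conj_ofReal, conj_ofReal]
  rw [map_mul, map_pow, map_neg, map_one, h2]
  congr 1
  have h3 := Complex.cpow_conj ((Real.cosh (κ * k) : ℂ) + τ * (Real.sinh (κ * k) : ℂ)) (-(e : ℂ)) h1
  rw [map_neg, conj_ofReal] at h3
  rw [Complex.conj_cpow _ _ h1, map_neg, conj_ofReal]

theorem cv_conj (hκ : 0 < κ) {τ : ℂ} (h : 0 < τ.re) : cv e κ (conj τ) = conj (cv e κ τ) := by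
  unfold cv
  rw [shf_conj hκ, shf_conj hκ, fT_conj hκ (shf_re hκ (shf_re hκ h.le).le)]

/-- Generic far field data. -/
structure FarN (e κ θ : ℝ) where
  Ω : ℕ → Set ℂ
  X : ℕ → ℂ → ℂ
  isOpen0 : IsOpen (Ω 0)
  conj0 : ∀ τ ∈ Ω 0, conj τ ∈ Ω 0
  re : ∀ n, ∀ τ ∈ Ω n, 0 < τ.re
  X_diff : ∀ n, ∀ τ ∈ Ω n, DifferentiableAt ℂ (X n) τ
  X_conj : ∀ n, ∀ τ ∈ Ω n, X n (conj τ) = conj (X n τ)
  X_ne : ∀ n, ∀ τ ∈ Ω n, X n τ ≠ 0
  X_lt : ∀ n, ∀ τ ∈ Ω n, ‖X n τ‖ < 1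
  rad : ∀ n, ∀ τ ∈ Ω n, ∀ χ : ℂ, ‖χ‖ ≤ ‖X n τ‖ → rd e κ τ χ ∈ slitPlane
  inv : ∀ n, ∀ τ ∈ Ω n, ∀ χ : ℂ, ‖χ‖ ≤ ‖X n τ‖ → nxt e κ τ χ ∈ Ω (n + 1)
  close : ∀ n, ∀ τ ∈ Ω n, ∀ χ χ' : ℂ, ‖χ‖ ≤ ‖X n τ‖ → ‖χ'‖ ≤ ‖X (n + 1) (nxt e κ τ χ)‖ →
    ‖1 - R1 e κ τ (nxt e κ τ χ) * (1 + qq e κ (shf κ (nxt e κ τ χ)) * χ')‖ ≤ θ * ‖X n τ‖
  ρ : ℕ → ℝ
  ρ_lim : Tendsto ρ atTop (𝓝 0)
  ρ_le : ∀ n, ∀ τ ∈ Ω n, ‖τ - 1‖ ≤ ρ n * ‖τ + 1‖

theorem im_of_conj {z w : ℂ} (h : z = conj w) (hzw : z = w) : w.im = 0 := by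
  rw [hzw] at h
  exact conj_eq_iff_im.1 h.symm

/-- positions with `|τ - 1| ≤ ρ |τ + 1|`, `ρ → 0` converge to `1` -/
theorem tend_one {t : ℕ → ℂ} {ρ : ℕ → ℝ} (hρ : Tendsto ρ atTop (𝓝 0))
    (h : ∀ n, ‖t n - 1‖ ≤ ρ n * ‖t n + 1‖) : Tendsto t atTop (𝓝 1) := by
  rw [tendsto_iff_norm_sub_tendsto_zero]
  have h1 : Tendsto (fun n => 4 * |ρ n|) atTop (𝓝 0) := by
    have := hρ.abs.const_mul 4
    simpa using this
  have h2 : ∀ᶠ n in atTop, |ρ n| < 1 / 2 := by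
    have h3 := hρ.abs
    rw [abs_zero] at h3
    exact h3.eventually (gt_mem_nhds (by norm_num))
  refine squeeze_zero' (Eventually.of_forall fun n => norm_nonneg _) ?_ h1
  filter_upwards [h2] with n hn
  have h4 := h n
  have h5 : ‖t n + 1‖ ≤ ‖t n - 1‖ + 2 := by
    calc ‖t n + 1‖ = ‖(t n - 1) + 2‖ := by ring_nf
      _ ≤ ‖t n - 1‖ + ‖(2 : ℂ)‖ := norm_add_le _ _
      _ = ‖t n - 1‖ + 2 := by simp
  have h6 := le_abs_self (ρ n)
  have h7 := norm_nonneg (t n + 1)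
  have h8 := norm_nonneg (t n - 1)
  have h9 := abs_nonneg (ρ n)
  nlinarith [mul_le_mul_of_nonneg_right h6 h7, mul_le_mul_of_nonneg_left h5 h9]

private theorem comp_snd {f : ℂ → ℂ} {p τ : ℂ} (h : DifferentiableAt ℂ f τ) :
    DifferentiableAt ℂ (fun q : ℂ × ℂ => f q.2) (p, τ) :=
  DifferentiableAt.comp (f := fun q : ℂ × ℂ => q.2) (g := f) (p, τ) h differentiableAt_snd

/-- **The far field record.** -/
noncomputable def farF (he : 0 < e) (hκ : 0 < κ) (d : FarN e κ θ) : FarF e κ θ where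
  DF := univ
  isOpen_DF := isOpen_univ
  conj_DF := fun _ _ => mem_univ _
  Ω := fun _ n => d.Ω n
  isOpen_entry := by
    have h : {q : ℂ × ℂ | q.1 ∈ univ ∧ q.2 ∈ d.Ω 0} = Prod.snd ⁻¹' (d.Ω 0) := by
      ext q
      simp
    rw [h]
    exact d.isOpen0.preimage continuous_snd
  conj_entry := fun _ _ τ hτ => d.conj0 τ hτ
  Ω_re := fun _ _ n τ hτ => d.re n τ hτ
  C := fun _ _ τ => cC e κ τ
  v := fun _ _ τ => cv e κ τ
  r := fun _ n τ => cv e κ τ * d.X n τ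
  C_diff := fun p _ n τ hτ => comp_snd (cC_diff hκ (d.re n τ hτ))
  v_diff := fun p _ n τ hτ => comp_snd (cv_diff he hκ (d.re n τ hτ))
  r_diff := fun p _ n τ hτ =>
    comp_snd (f := fun τ => cv e κ τ * d.X n τ) ((cv_diff he hκ (d.re n τ hτ)).mul (d.X_diff n τ hτ))
  C_conj := fun p _ τ hτ => cC_conj hκ (d.re 0 τ hτ)
  v_conj := fun p _ τ hτ => cv_conj hκ (d.re 0 τ hτ)
  r_conj := fun p _ τ hτ => by
    rw [cv_conj hκ (d.re 0 τ hτ), d.X_conj 0 τ hτ, map_mul]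
  r_ne := fun p _ n τ hτ => mul_ne_zero (cv_ne he hκ (d.re n τ hτ)) (d.X_ne n τ hτ)
  C_real := fun p _ n τ hτ => im_of_conj (cC_conj hκ (d.re n τ hτ)) (by rw [conj_ofReal])
  v_real := fun p _ n τ hτ => im_of_conj (cv_conj hκ (d.re n τ hτ)) (by rw [conj_ofReal])
  r_real := fun p _ n τ hτ => by
    have h1 := im_of_conj (cv_conj hκ (d.re n τ hτ) (e := e)) (by rw [conj_ofReal])
    have h2 := im_of_conj (d.X_conj n τ hτ) (by rw [conj_ofReal])
    rw [Complex.mul_im, h1, h2]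
    ring
  F_slit := fun p _ n τ hτ x hx => by
    have h1 := d.X_lt n τ hτ
    have h2 : cv e κ τ - cv e κ τ * d.X n τ * x = cv e κ τ * (1 - d.X n τ * x) := by ring
    rw [h2]
    refine F_slit he hκ (shf_re hκ (d.re n τ hτ).le) ?_
    rw [norm_mul]
    have := norm_nonneg (d.X n τ)
    nlinarith [norm_nonneg x]
  g_slit := fun p _ n τ hτ x hx => by
    have h1 := d.X_lt n τ hτ
    have h2 : cv e κ τ - cv e κ τ * d.X n τ * x = cv e κ τ * (1 - d.X n τ * x) := by ring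
    rw [h2]
    refine g_slit he hκ (shf_re hκ (d.re n τ hτ).le) ?_
    rw [norm_mul]
    have := norm_nonneg (d.X n τ)
    nlinarith [norm_nonneg x]
  rad_slit := fun p _ n τ hτ x hx => by
    have h2 : cv e κ τ - cv e κ τ * d.X n τ * x = cv e κ τ * (1 - d.X n τ * x) := by ring
    rw [h2]
    refine d.rad n τ hτ _ ?_
    rw [norm_mul]
    exact mul_le_of_le_one_right (norm_nonneg _) hx
  inv := fun p _ n τ hτ x hx => by
    have h2 : cv e κ τ - cv e κ τ * d.X n τ * x = cv e κ τ * (1 - d.X n τ * x) := by ring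
    rw [h2]
    refine d.inv n τ hτ _ ?_
    rw [norm_mul]
    exact mul_le_of_le_one_right (norm_nonneg _) hx
  close := by
    intro p _ n τ hτ x x' hx hx' τ' hτ'
    have h2 : cv e κ τ - cv e κ τ * d.X n τ * x = cv e κ τ * (1 - d.X n τ * x) := by ring
    have h3 : cv e κ τ' - cv e κ τ' * d.X (n + 1) τ' * x' =
        cv e κ τ' * (1 - d.X (n + 1) τ' * x') := by ring
    rw [h2] at hτ'
    rw [h3]
    have hX : ‖d.X n τ * x‖ ≤ ‖d.X n τ‖ := by
      rw [norm_mul]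
      exact mul_le_of_le_one_right (norm_nonneg _) hx
    have hi := d.inv n τ hτ _ hX
    have hn : nxt e κ τ (d.X n τ * x) = τ' := hτ'.symm
    rw [hn] at hi
    have hX0 := d.X_ne n τ hτ
    rw [law_eq he hκ (d.re n τ hτ) (d.re _ _ hi) hX0, norm_div,
      div_le_iff₀ (norm_pos_iff.2 hX0)]
    have hc := d.close n τ hτ _ (d.X (n + 1) τ' * x') hX (by
      rw [hn, norm_mul]
      exact mul_le_of_le_one_right (norm_nonneg _) hx')
    rw [hn] at hc
    exact hc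
  tend := by
    intro p _ x hx _ t h0 _ ht
    have h1 : ∀ n, t n ∈ d.Ω n := by
      intro n
      induction n with
      | zero => exact h0
      | succ n ih =>
        rw [ht n]
        have h2 : cv e κ (t n) - cv e κ (t n) * d.X n (t n) * x n =
          cv e κ (t n) * (1 - d.X n (t n) * x n) := by ring
        rw [h2]
        refine d.inv n (t n) ih _ ?_
        rw [norm_mul]
        exact mul_le_of_le_one_right (norm_nonneg _) (hx n)
    exact tend_one d.ρ_lim (fun n => d.ρ_le n (t n) (h1 n))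

/-- the region of the plain scheme -/
def OmR (κ R : ℝ) (E : Set ℂ) : Set ℂ := {τ | ‖τ - 1‖ < Real.exp (2 * κ) * R * ‖τ + 1‖ ∧ τ ∈ E}

/-- **The conditions per point** of the plain scheme with radii `X = B (s + 1) R/(1 - R)`; the next
radius has `w R` for `R`. -/
structure FarPt (e κ θ w B R : ℝ) (E : Set ℂ) (τ : ℂ) : Prop where
  X_lt : ‖Xr κ B R τ‖ < 1
  rad : ∀ χ : ℂ, ‖χ‖ ≤ ‖Xr κ B R τ‖ → rd e κ τ χ ∈ slitPlane
  inv : ∀ χ : ℂ, ‖χ‖ ≤ ‖Xr κ B R τ‖ → nxt e κ τ χ ∈ OmR κ (w * R) E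
  close : ∀ χ χ' : ℂ, ‖χ‖ ≤ ‖Xr κ B R τ‖ → ‖χ'‖ ≤ ‖Xr κ B (w * R) (nxt e κ τ χ)‖ →
    ‖1 - R1 e κ τ (nxt e κ τ χ) * (1 + qq e κ (shf κ (nxt e κ τ χ)) * χ')‖ ≤ θ * ‖Xr κ B R τ‖

theorem re_of_disc {c : ℝ} (hc : c ≤ 1) {τ : ℂ} (h : ‖τ - 1‖ < c * ‖τ + 1‖) : 0 < τ.re := by
  have h1 : ‖τ - 1‖ < ‖τ + 1‖ := by
    have := norm_nonneg (τ + 1)
    nlinarith
  have h2 := pow_lt_pow_left₀ h1 (norm_nonneg _) two_ne_zero
  rw [Complex.sq_norm, Complex.sq_norm, normSq_apply, normSq_apply] at h2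
  simp only [sub_re, add_re, one_re, sub_im, add_im, one_im] at h2
  nlinarith

/-- Far field data from the conditions per point. -/
noncomputable def farN_of (hκ : 0 < κ) {w B R0 : ℝ} (hw : 0 < w) (hw1 : w < 1)
    (hB : 0 < B) (hR : 0 < R0) (hR1 : Real.exp (2 * κ) * R0 < 1) {E : Set ℂ} (hE : IsOpen E)
    (hEc : ∀ τ ∈ E, conj τ ∈ E)
    (h : ∀ R, 0 < R → R ≤ R0 → ∀ τ ∈ OmR κ R E, FarPt e κ θ w B R E τ) : FarN e κ θ :=
  have hm : 1 < Real.exp (2 * κ) := by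
    rw [Real.one_lt_exp_iff]
    positivity
  have hRn : ∀ n : ℕ, 0 < w ^ n * R0 ∧ w ^ n * R0 ≤ R0 := fun n => by
    constructor
    · positivity
    · exact mul_le_of_le_one_left hR.le (pow_le_one₀ hw.le hw1.le)
  have hlt : ∀ n : ℕ, Real.exp (2 * κ) * (w ^ n * R0) ≤ 1 := fun n => by
    have := mul_le_mul_of_nonneg_left (hRn n).2 (Real.exp_pos (2 * κ)).le
    linarith
  have hre : ∀ n : ℕ, ∀ τ ∈ OmR κ (w ^ n * R0) E, 0 < τ.re := fun n τ hτ =>
    re_of_disc (hlt n) hτ.1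
  have hsucc : ∀ n : ℕ, w ^ (n + 1) * R0 = w * (w ^ n * R0) := fun n => by ring
  { Ω := fun n => OmR κ (w ^ n * R0) E
    X := fun n => Xr κ B (w ^ n * R0)
    isOpen0 := by
      have h1 : IsOpen {τ : ℂ | ‖τ - 1‖ < Real.exp (2 * κ) * (w ^ 0 * R0) * ‖τ + 1‖} :=
        isOpen_lt (by fun_prop) (by fun_prop)
      exact h1.inter hE
    conj0 := by
      rintro τ ⟨h1, h2⟩
      refine ⟨?_, hEc τ h2⟩
      have e1 : conj τ - 1 = conj (τ - 1) := by rw [map_sub, map_one]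
      have e2 : conj τ + 1 = conj (τ + 1) := by rw [map_add, map_one]
      rw [e1, e2, norm_conj, norm_conj]
      exact h1
    re := hre
    X_diff := fun n τ hτ => Xr_diff hκ (hre n τ hτ)
    X_conj := fun n τ _ => Xr_conj hκ _ _ τ
    X_ne := by
      intro n τ hτ
      unfold Xr
      have h1 := shf_re hκ (hre n τ hτ).le
      have h2 : shf κ τ + 1 ≠ 0 := by
        intro h0
        have : (shf κ τ + 1).re = 0 := by rw [h0, zero_re]
        rw [add_re, one_re] at this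
        linarith
      have h3 := (hRn n)
      have h4 : w ^ n * R0 < 1 := by
        have := hlt n
        nlinarith
      have h5 : (B * (w ^ n * R0) / (1 - w ^ n * R0)) ≠ 0 := by
        have : 0 < 1 - w ^ n * R0 := by linarith
        have := h3.1
        positivity
      exact mul_ne_zero (by exact_mod_cast h5) h2
    X_lt := fun n τ hτ => (h _ (hRn n).1 (hRn n).2 τ hτ).X_lt
    rad := fun n τ hτ => (h _ (hRn n).1 (hRn n).2 τ hτ).rad
    inv := by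
      intro n τ hτ χ hχ
      have := (h _ (hRn n).1 (hRn n).2 τ hτ).inv χ hχ
      rw [← hsucc] at this
      exact this
    close := by
      intro n τ hτ χ χ' hχ hχ'
      rw [hsucc] at hχ'
      exact (h _ (hRn n).1 (hRn n).2 τ hτ).close χ χ' hχ hχ'
    ρ := fun n => Real.exp (2 * κ) * (w ^ n * R0)
    ρ_lim := by
      have h1 := tendsto_pow_atTop_nhds_zero_of_lt_one hw.le hw1
      have h2 := (h1.mul_const R0).const_mul (Real.exp (2 * κ))
      simpa using h2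
    ρ_le := fun n τ hτ => hτ.1.le }

/-- Far field data from the conditions per point, the extra set `E R` depends on `R`
(`FarPt … (E (w * R))` only contains the set of the next point). -/
noncomputable def farN_ofR (hκ : 0 < κ) {w B R0 : ℝ} (hw : 0 < w) (hw1 : w < 1)
    (hB : 0 < B) (hR : 0 < R0) (hR1 : Real.exp (2 * κ) * R0 < 1) {E : ℝ → Set ℂ}
    (hE : IsOpen (E R0)) (hEc : ∀ τ ∈ E R0, conj τ ∈ E R0)
    (h : ∀ R, 0 < R → R ≤ R0 → ∀ τ ∈ OmR κ R (E R), FarPt e κ θ w B R (E (w * R)) τ) :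
    FarN e κ θ :=
  have hm : 1 < Real.exp (2 * κ) := by
    rw [Real.one_lt_exp_iff]
    positivity
  have hRn : ∀ n : ℕ, 0 < w ^ n * R0 ∧ w ^ n * R0 ≤ R0 := fun n => by
    constructor
    · positivity
    · exact mul_le_of_le_one_left hR.le (pow_le_one₀ hw.le hw1.le)
  have hlt : ∀ n : ℕ, Real.exp (2 * κ) * (w ^ n * R0) ≤ 1 := fun n => by
    have := mul_le_mul_of_nonneg_left (hRn n).2 (Real.exp_pos (2 * κ)).le
    linarith
  have hre : ∀ n : ℕ, ∀ τ ∈ OmR κ (w ^ n * R0) (E (w ^ n * R0)), 0 < τ.re := fun n τ hτ =>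
    re_of_disc (hlt n) hτ.1
  have hsucc : ∀ n : ℕ, w ^ (n + 1) * R0 = w * (w ^ n * R0) := fun n => by ring
  { Ω := fun n => OmR κ (w ^ n * R0) (E (w ^ n * R0))
    X := fun n => Xr κ B (w ^ n * R0)
    isOpen0 := by
      have h1 : IsOpen {τ : ℂ | ‖τ - 1‖ < Real.exp (2 * κ) * (w ^ 0 * R0) * ‖τ + 1‖} :=
        isOpen_lt (by fun_prop) (by fun_prop)
      have h2 : IsOpen (E (w ^ 0 * R0)) := by
        rw [pow_zero, one_mul]
        exact hE
      exact h1.inter h2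
    conj0 := by
      rintro τ ⟨h1, h2⟩
      rw [pow_zero, one_mul] at h1 h2 ⊢
      refine ⟨?_, hEc τ h2⟩
      have e1 : conj τ - 1 = conj (τ - 1) := by rw [map_sub, map_one]
      have e2 : conj τ + 1 = conj (τ + 1) := by rw [map_add, map_one]
      rw [e1, e2, norm_conj, norm_conj]
      exact h1
    re := hre
    X_diff := fun n τ hτ => Xr_diff hκ (hre n τ hτ)
    X_conj := fun n τ _ => Xr_conj hκ _ _ τ
    X_ne := by
      intro n τ hτ
      unfold Xr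
      have h1 := shf_re hκ (hre n τ hτ).le
      have h2 : shf κ τ + 1 ≠ 0 := by
        intro h0
        have : (shf κ τ + 1).re = 0 := by rw [h0, zero_re]
        rw [add_re, one_re] at this
        linarith
      have h3 := (hRn n)
      have h4 : w ^ n * R0 < 1 := by
        have := hlt n
        nlinarith
      have h5 : (B * (w ^ n * R0) / (1 - w ^ n * R0)) ≠ 0 := by
        have : 0 < 1 - w ^ n * R0 := by linarith
        have := h3.1
        positivity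
      exact mul_ne_zero (by exact_mod_cast h5) h2
    X_lt := fun n τ hτ => (h _ (hRn n).1 (hRn n).2 τ hτ).X_lt
    rad := fun n τ hτ => (h _ (hRn n).1 (hRn n).2 τ hτ).rad
    inv := by
      intro n τ hτ χ hχ
      have := (h _ (hRn n).1 (hRn n).2 τ hτ).inv χ hχ
      rw [← hsucc] at this
      exact this
    close := by
      intro n τ hτ χ χ' hχ hχ'
      rw [hsucc] at hχ'
      exact (h _ (hRn n).1 (hRn n).2 τ hτ).close χ χ' hχ hχ'
    ρ := fun n => Real.exp (2 * κ) * (w ^ n * R0)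
    ρ_lim := by
      have h1 := tendsto_pow_atTop_nhds_zero_of_lt_one hw.le hw1
      have h2 := (h1.mul_const R0).const_mul (Real.exp (2 * κ))
      simpa using h2
    ρ_le := fun n τ hτ => hτ.1.le }

end Pool.Agent.helper12.FF
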