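import Pool.Agent.helper12.RP.Basic

/-!
# FF-1: Harnack type bounds for the rigid sum (H1-H5 of the far field specification)

`rt t = |t-1|/|t+1|`, `h1 κ t = 2ρ/(1-ρ)` for the pseudohyperbolic distance `ρ` of `t` and `shf t`.
-/

namespace Pool.Agent.helper12.FF

open Complex ComplexConjugate Pool.Agent.helper31.EQ.Y Pool.Agent.helper31.EQ.R
open Pool.Agent.helper12.EQL Pool.Agent.helper12.RP

noncomputable section

/-- `|t-1|/|t+1|` -/
def rt (t : ℂ) : ℝ := ‖t - 1‖ / ‖t + 1‖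

/-- `tanh κ(σ+1)/tanh κσ - 1` for `rt t = exp (-2κσ)` -/
def h1 (κ : ℝ) (t : ℂ) : ℝ :=
  (1 + rt t) * (1 - Real.exp (-(2 * κ)) * rt t) / ((1 - rt t) * (1 + Real.exp (-(2 * κ)) * rt t)) - 1

/-- `Re (f - 1/2)` -/
def gR (e κ : ℝ) (t : ℂ) : ℝ := (fT e κ t).re - 1 / 2

def gam (e κ : ℝ) (t : ℂ) : ℝ := gR e κ t / ‖fT e κ t‖

def qa (e κ : ℝ) (t : ℂ) : ℝ := ‖Qk κ t ^ (-(e : ℂ))‖

def oo (e κ : ℝ) (t : ℂ) : ℝ := ‖1 + Qk κ t ^ (-(e : ℂ))‖

def qq (e κ : ℝ) (t : ℂ) : ℂ := (1 - fT e κ t) / fT e κ t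

end

variable {e κ : ℝ}

/-! ### general positive real part functions -/

theorem pos_pick {p : ℂ → ℂ} (hp : DifferentiableOn ℂ p {z | 0 < z.re})
    (hpos : ∀ z : ℂ, 0 < z.re → 0 < (p z).re) {z w : ℂ} (hz : 0 < z.re) (hw : 0 < w.re) :
    ‖p z - p w‖ * (‖z + conj w‖ - ‖z - w‖) ≤ 2 * ‖z - w‖ * (p w).re := by
  have h1 := halfPlane_pick hp hpos hz hw
  have h2 : ‖p z + conj (p w)‖ ≤ ‖p z - p w‖ + 2 * (p w).re := by
    have e1 : p z + conj (p w) = (p z - p w) + ((2 * (p w).re : ℝ) : ℂ) := by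
      have := Complex.add_conj (p w)
      linear_combination this
    rw [e1]
    refine (norm_add_le _ _).trans ?_
    rw [Complex.norm_real, Real.norm_of_nonneg (by have := hpos w hw; linarith)]
  have h3 : ‖z - w‖ * ‖p z + conj (p w)‖ ≤ ‖z - w‖ * (‖p z - p w‖ + 2 * (p w).re) :=
    mul_le_mul_of_nonneg_left h2 (norm_nonneg _)
  nlinarith

/-- Relative displacement `d`. -/
theorem pos_disp {p : ℂ → ℂ} (hp : DifferentiableOn ℂ p {z | 0 < z.re})
    (hpos : ∀ z : ℂ, 0 < z.re → 0 < (p z).re) {z w : ℂ} (hz : 0 < z.re) (hw : 0 < w.re) {d : ℝ}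
    (hd : ‖z - w‖ ≤ d * w.re) (hd1 : d < 1) :
    ‖p z - p w‖ ≤ d / (1 - d) * (p w).re := by
  have h1 := pos_pick hp hpos hz hw
  have hd0 : 0 ≤ d := by
    by_contra hc
    push Not at hc
    have : d * w.re < 0 := mul_neg_of_neg_of_pos hc hw
    have := norm_nonneg (z - w)
    linarith
  have h2 : 2 * w.re - ‖z - w‖ ≤ ‖z + conj w‖ := by
    have e1 : z + conj w = (z - w) + ((2 * w.re : ℝ) : ℂ) := by
      have := Complex.add_conj w
      linear_combination this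
    rw [e1]
    have h3 := norm_sub_le ((z - w) + ((2 * w.re : ℝ) : ℂ)) (z - w)
    rw [add_sub_cancel_left, Complex.norm_real, Real.norm_of_nonneg (by linarith)] at h3
    linarith
  have hP := hpos w hw
  have h4 : ‖p z - p w‖ * (2 * w.re * (1 - d)) ≤ 2 * (d * w.re) * (p w).re := by
    calc ‖p z - p w‖ * (2 * w.re * (1 - d)) ≤ ‖p z - p w‖ * (‖z + conj w‖ - ‖z - w‖) := by
          apply mul_le_mul_of_nonneg_left _ (norm_nonneg _)
          nlinarith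
      _ ≤ 2 * ‖z - w‖ * (p w).re := h1
      _ ≤ 2 * (d * w.re) * (p w).re := by
          apply mul_le_mul_of_nonneg_right _ hP.le
          linarith
  have h5 : 0 < 2 * w.re := by linarith
  have h6 : ‖p z - p w‖ * (1 - d) ≤ d * (p w).re := by
    have : (2 * w.re) * (‖p z - p w‖ * (1 - d)) ≤ (2 * w.re) * (d * (p w).re) := by linarith
    exact le_of_mul_le_mul_left this h5
  rw [div_mul_eq_mul_div, le_div_iff₀ (by linarith)]
  exact h6

/-! ### `2 f - 1` -/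

theorem g_diff (he : 0 < e) (hκ : 0 < κ) :
    DifferentiableOn ℂ (fun z => 2 * fT e κ z - 1) {z : ℂ | 0 < z.re} :=
  ((differentiableOn_fT he hκ).const_mul 2).sub_const 1

theorem g_re (z : ℂ) : (2 * fT e κ z - 1).re = 2 * gR e κ z := by
  unfold gR
  rw [Complex.sub_re, Complex.mul_re, Complex.one_re]
  simp
  ring

theorem gR_pos (he : 0 < e) (hκ : 0 < κ) {z : ℂ} (hz : 0 < z.re) : 0 < gR e κ z := by
  have := half_lt_re_fT he hκ hz
  unfold gR
  linarith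

theorem g_pos (he : 0 < e) (hκ : 0 < κ) : ∀ z : ℂ, 0 < z.re → 0 < (2 * fT e κ z - 1).re := by
  intro z hz
  rw [g_re]
  have := gR_pos he hκ hz
  linarith

theorem f_pick (he : 0 < e) (hκ : 0 < κ) {z w : ℂ} (hz : 0 < z.re) (hw : 0 < w.re) :
    ‖fT e κ z - fT e κ w‖ * (‖z + conj w‖ - ‖z - w‖) ≤ 2 * ‖z - w‖ * gR e κ w := by
  have h1 := pos_pick (g_diff he hκ) (g_pos he hκ) hz hw
  rw [g_re] at h1
  have e1 : (2 * fT e κ z - 1) - (2 * fT e κ w - 1) = 2 * (fT e κ z - fT e κ w) := by ring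
  rw [e1, norm_mul, Complex.norm_ofNat] at h1
  linarith

/-- **H4** -/
theorem H4 (he : 0 < e) (hκ : 0 < κ) {z w : ℂ} (hz : 0 < z.re) (hw : 0 < w.re) {d : ℝ}
    (hd : ‖z - w‖ ≤ d * w.re) (hd1 : d < 1) :
    ‖fT e κ z - fT e κ w‖ ≤ d / (1 - d) * gR e κ w := by
  have h1 := pos_disp (g_diff he hκ) (g_pos he hκ) hz hw hd hd1
  rw [g_re] at h1
  have e1 : (2 * fT e κ z - 1) - (2 * fT e κ w - 1) = 2 * (fT e κ z - fT e κ w) := by ring
  rw [e1, norm_mul, Complex.norm_ofNat] at h1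
  linarith

theorem fT_norm_pos (he : 0 < e) (hκ : 0 < κ) {w : ℂ} (hw : 0 < w.re) : 0 < ‖fT e κ w‖ :=
  norm_pos_iff.2 (fT_ne he hκ hw)

theorem div_norm_sub (he : 0 < e) (hκ : 0 < κ) {z w : ℂ} (hw : 0 < w.re) {c : ℝ}
    (h : ‖fT e κ z - fT e κ w‖ ≤ c * gR e κ w) : ‖fT e κ z / fT e κ w - 1‖ ≤ c * gam e κ w := by
  have h0 := fT_ne he hκ hw
  have h1 := fT_norm_pos he hκ hw
  have e1 : fT e κ z / fT e κ w - 1 = (fT e κ z - fT e κ w) / fT e κ w := by
    field_simp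
  rw [e1, norm_div]
  unfold gam
  rw [← mul_div_assoc]
  exact div_le_div_of_nonneg_right h h1.le

/-- **H4**, relative form -/
theorem H4' (he : 0 < e) (hκ : 0 < κ) {z w : ℂ} (hz : 0 < z.re) (hw : 0 < w.re) {d : ℝ}
    (hd : ‖z - w‖ ≤ d * w.re) (hd1 : d < 1) :
    ‖fT e κ z / fT e κ w - 1‖ ≤ d / (1 - d) * gam e κ w :=
  div_norm_sub he hκ hw (H4 he hκ hz hw hd hd1)

/-! ### `rt` and the shift -/

theorem add_one_pos {t : ℂ} (ht : 0 < t.re) : 0 < ‖t + 1‖ := by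
  rw [norm_pos_iff]
  intro h
  have := congrArg Complex.re h
  rw [Complex.add_re, Complex.one_re, Complex.zero_re] at this
  linarith

theorem rt_nonneg (t : ℂ) : 0 ≤ rt t := by unfold rt; positivity

theorem sub_sq (t : ℂ) : ‖t - 1‖ ^ 2 = ‖t‖ ^ 2 + 1 - 2 * t.re := by
  rw [← Complex.normSq_eq_norm_sq, ← Complex.normSq_eq_norm_sq, Complex.normSq_apply,
    Complex.normSq_apply, Complex.sub_re, Complex.sub_im, Complex.one_re, Complex.one_im]
  ring

theorem add_sq' (t : ℂ) : ‖t + 1‖ ^ 2 = ‖t‖ ^ 2 + 1 + 2 * t.re := by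
  rw [← Complex.normSq_eq_norm_sq, ← Complex.normSq_eq_norm_sq, Complex.normSq_apply,
    Complex.normSq_apply, Complex.add_re, Complex.add_im, Complex.one_re, Complex.one_im]
  ring

theorem rt_lt_one {t : ℂ} (ht : 0 < t.re) : rt t < 1 := by
  unfold rt
  rw [div_lt_one (add_one_pos ht)]
  apply lt_of_pow_lt_pow_left₀ 2 (norm_nonneg _)
  rw [sub_sq, add_sq']
  linarith

/-- `q ↦ exp (-2κ) q` -/
theorem rt_shf (hκ : 0 < κ) {t : ℂ} (ht : 0 < t.re) :
    (shf κ t - 1) * (t + 1) = (Real.exp (-(2 * κ)) : ℂ) * ((t - 1) * (shf κ t + 1)) := by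
  have hd := shf_den hκ ht.le
  have hC := Real.cosh_pos κ
  have hT : (Real.tanh κ : ℂ) = (Real.sinh κ : ℂ) / (Real.cosh κ : ℂ) := by
    rw [Real.tanh_eq_sinh_div_cosh]
    push_cast
    rfl
  have hC0 : (Real.cosh κ : ℂ) ≠ 0 := by exact_mod_cast hC.ne'
  have hE : Real.exp (-(2 * κ)) * (Real.cosh κ + Real.sinh κ) = Real.cosh κ - Real.sinh κ := by
    rw [Real.cosh_add_sinh, Real.cosh_sub_sinh, ← Real.exp_add]
    congr 1
    ring
  have hE' : (Real.exp (-(2 * κ)) : ℂ) * ((Real.cosh κ : ℂ) + (Real.sinh κ : ℂ)) =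
      (Real.cosh κ : ℂ) - (Real.sinh κ : ℂ) := by
    exact_mod_cast hE
  have h1 : (shf κ t - 1) * (1 + (Real.tanh κ : ℂ) * t) = (1 - (Real.tanh κ : ℂ)) * (t - 1) := by
    unfold shf
    rw [sub_mul, div_mul_cancel₀ _ hd]
    ring
  have h2 : (shf κ t + 1) * (1 + (Real.tanh κ : ℂ) * t) = (1 + (Real.tanh κ : ℂ)) * (t + 1) := by
    unfold shf
    rw [add_mul, div_mul_cancel₀ _ hd]
    ring
  have h3 : (Real.exp (-(2 * κ)) : ℂ) * (1 + (Real.tanh κ : ℂ)) = 1 - (Real.tanh κ : ℂ) := by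
    rw [hT]
    field_simp
    linear_combination hE'
  apply mul_right_cancel₀ hd
  linear_combination (t + 1) * h1 - (Real.exp (-(2 * κ)) : ℂ) * (t - 1) * h2 -
    (t - 1) * (t + 1) * h3

theorem rt_shf_eq (hκ : 0 < κ) {t : ℂ} (ht : 0 < t.re) :
    rt (shf κ t) = Real.exp (-(2 * κ)) * rt t := by
  have h1 := congrArg norm (rt_shf hκ ht)
  rw [norm_mul, norm_mul, norm_mul, Complex.norm_real, Real.norm_of_nonneg (Real.exp_pos _).le] at h1
  have h2 := add_one_pos ht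
  have h3 := add_one_pos (shf_re hκ ht.le)
  unfold rt
  field_simp
  linarith

theorem tanh_pos' (hκ : 0 < κ) : 0 < Real.tanh κ := by
  rw [Real.tanh_eq_sinh_div_cosh]
  exact div_pos (Real.sinh_pos_iff.2 hκ) (Real.cosh_pos κ)

theorem tanh_le' (hκ : 0 < κ) : Real.tanh κ ≤ κ := by
  rw [Real.tanh_eq_sinh_div_cosh, div_le_iff₀ (Real.cosh_pos κ)]
  have hd : ∀ y : ℝ, HasDerivAt (fun y => y * Real.cosh y - Real.sinh y)
      (1 * Real.cosh y + y * Real.sinh y - Real.cosh y) y := fun y =>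
    ((hasDerivAt_id y).mul (Real.hasDerivAt_cosh y)).sub (Real.hasDerivAt_sinh y)
  have hmono : MonotoneOn (fun y => y * Real.cosh y - Real.sinh y) (Set.Ici 0) := by
    apply monotoneOn_of_deriv_nonneg (convex_Ici 0)
    · exact fun y _ => (hd y).continuousAt.continuousWithinAt
    · exact fun y _ => (hd y).differentiableAt.differentiableWithinAt
    · intro y hy
      rw [interior_Ici] at hy
      rw [(hd y).deriv]
      have h1 : 0 < y := hy
      have h2 : 0 < Real.sinh y := Real.sinh_pos_iff.2 h1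
      nlinarith [mul_pos h1 h2]
  have h2 := hmono (Set.mem_Ici.2 le_rfl) (Set.mem_Ici.2 hκ.le) hκ.le
  simp at h2
  linarith

theorem exp_tanh (κ : ℝ) : Real.exp (-(2 * κ)) * (1 + Real.tanh κ) = 1 - Real.tanh κ := by
  have hC := Real.cosh_pos κ
  have h3 : Real.exp (-(2 * κ)) * (Real.cosh κ + Real.sinh κ) = Real.cosh κ - Real.sinh κ := by
    rw [Real.cosh_add_sinh, Real.cosh_sub_sinh, ← Real.exp_add]
    congr 1
    ring
  rw [Real.tanh_eq_sinh_div_cosh]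
  field_simp
  linarith

theorem rt_aux {t : ℂ} (ht : 0 < t.re) : 0 ≤ ‖t - 1‖ ∧ ‖t - 1‖ < ‖t + 1‖ := by
  refine ⟨norm_nonneg _, ?_⟩
  have := rt_lt_one ht
  unfold rt at this
  rwa [div_lt_one (add_one_pos ht)] at this

/-- value of `h1` -/
theorem h1_mul (hκ : 0 < κ) {t : ℂ} (ht : 0 < t.re) :
    h1 κ t * ((1 + Real.tanh κ) * ‖t + 1‖ ^ 2 - (1 - Real.tanh κ) * ‖t - 1‖ ^ 2 -
      2 * Real.tanh κ * (‖t - 1‖ * ‖t + 1‖)) = 4 * Real.tanh κ * (‖t - 1‖ * ‖t + 1‖) := by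
  have hk := exp_tanh κ
  have hT0 := tanh_pos' hκ
  have hT1 := Real.tanh_lt_one κ
  obtain ⟨ha0, hab⟩ := rt_aux ht
  have hb0 := add_one_pos ht
  unfold h1 rt
  set T := Real.tanh κ with hT
  set a := ‖t - 1‖ with ha
  set b := ‖t + 1‖ with hb
  have hk' : Real.exp (-(2 * κ)) = (1 - T) / (1 + T) := by
    field_simp
    linarith
  have hq : 0 < (1 + T) * b + (1 - T) * a := by
    have : 0 ≤ (1 - T) * a := mul_nonneg (by linarith) ha0
    have : 0 < (1 + T) * b := by positivity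
    linarith
  have hba : 0 < b - a := by linarith
  have hT2 : 0 < 1 + T := by linarith
  rw [hk']
  have e3 : (1 + a / b) * (1 - (1 - T) / (1 + T) * (a / b)) /
      ((1 - a / b) * (1 + (1 - T) / (1 + T) * (a / b))) =
      (b + a) * ((1 + T) * b - (1 - T) * a) / ((b - a) * ((1 + T) * b + (1 - T) * a)) := by
    have f1 : 1 + a / b = (b + a) / b := by field_simp
    have f2 : 1 - (1 - T) / (1 + T) * (a / b) = ((1 + T) * b - (1 - T) * a) / ((1 + T) * b) := by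
      field_simp
    have f3 : 1 - a / b = (b - a) / b := by field_simp
    have f4 : 1 + (1 - T) / (1 + T) * (a / b) = ((1 + T) * b + (1 - T) * a) / ((1 + T) * b) := by
      field_simp
    rw [f1, f2, f3, f4]
    field_simp
  have e0 : (1 + T) * b ^ 2 - (1 - T) * a ^ 2 - 2 * T * (a * b) =
      (b - a) * ((1 + T) * b + (1 - T) * a) := by ring
  rw [e3, e0, sub_mul, div_mul_cancel₀ _ (mul_ne_zero hba.ne' hq.ne'), one_mul]
  ring

/-- the distance of `t` and `shf t` -/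
theorem shf_dist (hκ : 0 < κ) {t : ℂ} (ht : 0 < t.re) :
    2 * ‖shf κ t - t‖ = h1 κ t * (‖shf κ t + conj t‖ - ‖shf κ t - t‖) ∧
      0 < ‖shf κ t + conj t‖ - ‖shf κ t - t‖ := by
  have hd := shf_den hκ ht.le
  have hdn : 0 < ‖1 + (Real.tanh κ : ℂ) * t‖ := norm_pos_iff.2 hd
  obtain ⟨T, hT⟩ : ∃ T : ℝ, T = Real.tanh κ := ⟨_, rfl⟩
  have hT0 : 0 < T := by rw [hT]; exact tanh_pos' hκ
  have hT1 : T < 1 := by rw [hT]; exact Real.tanh_lt_one κ
  have hC := Real.cosh_pos κ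
  have hk : Real.exp (-(2 * κ)) * (1 + T) = 1 - T := by
    have h3 : Real.exp (-(2 * κ)) * (Real.cosh κ + Real.sinh κ) = Real.cosh κ - Real.sinh κ := by
      rw [Real.cosh_add_sinh, Real.cosh_sub_sinh, ← Real.exp_add]
      congr 1
      ring
    rw [hT, Real.tanh_eq_sinh_div_cosh]
    field_simp
    linarith
  obtain ⟨a, ha⟩ : ∃ a : ℝ, a = ‖t - 1‖ := ⟨_, rfl⟩
  obtain ⟨b, hb⟩ : ∃ b : ℝ, b = ‖t + 1‖ := ⟨_, rfl⟩
  have hb0 : 0 < b := by rw [hb]; exact add_one_pos ht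
  have ha0 : 0 ≤ a := by rw [ha]; exact norm_nonneg _
  have hab : a < b := by
    have := rt_lt_one ht
    unfold rt at this
    rwa [← ha, ← hb, div_lt_one hb0] at this
  have ha2 := sub_sq t
  have hb2 := add_sq' t
  rw [← ha] at ha2
  rw [← hb] at hb2
  -- the two norms
  have n1 : ‖shf κ t - t‖ * ‖1 + (T : ℂ) * t‖ = T * (a * b) := by
    rw [← norm_mul, ha, hb, ← norm_mul]
    have e1 : (shf κ t - t) * (1 + (T : ℂ) * t) = -((T : ℂ) * ((t - 1) * (t + 1))) := by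
      unfold shf
      rw [← hT] at hd ⊢
      rw [sub_mul, div_mul_cancel₀ _ hd]
      ring
    rw [e1, norm_neg, norm_mul, Complex.norm_real, Real.norm_of_nonneg hT0.le]
  have n2 : ‖shf κ t + conj t‖ * ‖1 + (T : ℂ) * t‖ = ((1 + T) * b ^ 2 - (1 - T) * a ^ 2) / 2 := by
    rw [← norm_mul]
    have e1 : (shf κ t + conj t) * (1 + (T : ℂ) * t) =
        ((T * (1 + ‖t‖ ^ 2) + 2 * t.re : ℝ) : ℂ) := by
      unfold shf
      rw [← hT] at hd ⊢
      rw [add_mul, div_mul_cancel₀ _ hd]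
      have c1 := Complex.add_conj t
      have c2 : conj t * t = ((‖t‖ ^ 2 : ℝ) : ℂ) := by
        rw [mul_comm, Complex.mul_conj, Complex.normSq_eq_norm_sq]
      push_cast at c1 c2 ⊢
      linear_combination c1 + (T : ℂ) * c2
    rw [e1, Complex.norm_real, Real.norm_of_nonneg (by positivity), ha2, hb2]
    ring
  have hD : 0 < (1 + T) * b ^ 2 - (1 - T) * a ^ 2 - 2 * T * (a * b) := by
    have e1 : (1 + T) * b ^ 2 - (1 - T) * a ^ 2 - 2 * T * (a * b) =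
        (b - a) * ((1 - T) * (b + a) + 2 * T * b) := by ring
    rw [e1]
    apply mul_pos (by linarith)
    have : 0 < (1 - T) * (b + a) := mul_pos (by linarith) (by linarith)
    positivity
  have n3 : (‖shf κ t + conj t‖ - ‖shf κ t - t‖) * ‖1 + (T : ℂ) * t‖ =
      ((1 + T) * b ^ 2 - (1 - T) * a ^ 2 - 2 * T * (a * b)) / 2 := by
    rw [sub_mul, n1, n2]
    ring
  rw [← hT] at hdn
  have hpos : 0 < ‖shf κ t + conj t‖ - ‖shf κ t - t‖ := by
    by_contra hc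
    push Not at hc
    have : (‖shf κ t + conj t‖ - ‖shf κ t - t‖) * ‖1 + (T : ℂ) * t‖ ≤ 0 :=
      mul_nonpos_of_nonpos_of_nonneg hc hdn.le
    linarith
  refine ⟨?_, hpos⟩
  have hh := h1_mul hκ ht
  rw [← hT, ← ha, ← hb] at hh
  apply mul_right_cancel₀ hdn.ne'
  rw [mul_assoc, n1, mul_assoc, n3]
  linarith

theorem h1_nonneg (hκ : 0 < κ) {t : ℂ} (ht : 0 < t.re) : 0 ≤ h1 κ t := by
  obtain ⟨h2, h3⟩ := shf_dist hκ ht
  by_contra hc
  push Not at hc
  have : h1 κ t * (‖shf κ t + conj t‖ - ‖shf κ t - t‖) < 0 := mul_neg_of_neg_of_pos hc h3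
  have := norm_nonneg (shf κ t - t)
  linarith

/-- **H1** -/
theorem H1 (he : 0 < e) (hκ : 0 < κ) {t : ℂ} (ht : 0 < t.re) :
    ‖fT e κ (shf κ t) - fT e κ t‖ ≤ h1 κ t * gR e κ t := by
  obtain ⟨h2, h3⟩ := shf_dist hκ ht
  have h4 := f_pick he hκ (shf_re hκ ht.le) ht
  rw [h2] at h4
  have h5 : (‖shf κ t + conj t‖ - ‖shf κ t - t‖) * ‖fT e κ (shf κ t) - fT e κ t‖ ≤
      (‖shf κ t + conj t‖ - ‖shf κ t - t‖) * (h1 κ t * gR e κ t) := by linarith
  exact le_of_mul_le_mul_left h5 h3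

/-- `h1 ≤ κ |t² - 1| / Re t` -/
theorem h1_le (hκ : 0 < κ) {t : ℂ} (ht : 0 < t.re) : h1 κ t ≤ κ * (‖t - 1‖ * ‖t + 1‖) / t.re := by
  have hT0 := tanh_pos' hκ
  have hTκ := tanh_le' hκ
  have hm := h1_mul hκ ht
  have hh := h1_nonneg hκ ht
  obtain ⟨ha0, hab⟩ := rt_aux ht
  have ha2 := sub_sq t
  have hb2 := add_sq' t
  rw [le_div_iff₀ ht]
  set T := Real.tanh κ with hT
  set a := ‖t - 1‖ with ha
  set b := ‖t + 1‖ with hb
  have h4 : 4 * t.re ≤ (1 + T) * b ^ 2 - (1 - T) * a ^ 2 - 2 * T * (a * b) := by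
    have e1 : (1 + T) * b ^ 2 - (1 - T) * a ^ 2 - 2 * T * (a * b) =
        b ^ 2 - a ^ 2 + T * (b - a) ^ 2 := by ring
    rw [e1, hb2, ha2]
    have : 0 ≤ T * (b - a) ^ 2 := by positivity
    linarith
  have h5 : h1 κ t * (4 * t.re) ≤ 4 * T * (a * b) := by
    rw [← hm]
    exact mul_le_mul_of_nonneg_left h4 hh
  have h6 : T * (a * b) ≤ κ * (a * b) := mul_le_mul_of_nonneg_right hTκ (by positivity)
  linarith

end Pool.Agent.helper12.FF
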