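import Pool.Agent.helper12.FF.Harn

/-!
# FF-2: H2, H3, H5, H6, H7 of the far field specification
-/

namespace Pool.Agent.helper12.FF

open Complex ComplexConjugate Pool.Agent.helper31.EQ.Y Pool.Agent.helper31.EQ.R
open Pool.Agent.helper12.EQL Pool.Agent.helper12.RP

variable {e κ : ℝ}

theorem one_sub_fT (he : 0 < e) (hκ : 0 < κ) {t : ℂ} (ht : 0 < t.re) :
    1 - fT e κ t = Qk κ t ^ (-(e : ℂ)) * fT e κ (shf κ t) := by
  have := fT_add he hκ ht
  linear_combination -this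

theorem qa_nonneg (t : ℂ) : 0 ≤ qa e κ t := norm_nonneg _

theorem gam_nonneg (he : 0 < e) (hκ : 0 < κ) {t : ℂ} (ht : 0 < t.re) : 0 ≤ gam e κ t := by
  have := gR_pos he hκ ht
  unfold gam
  positivity

theorem gR_lt_norm (t : ℂ) : gR e κ t + 1 / 2 ≤ ‖fT e κ t‖ := by
  have := Complex.re_le_norm (fT e κ t)
  unfold gR
  linarith

theorem gam_le (he : 0 < e) (hκ : 0 < κ) {t : ℂ} (ht : 0 < t.re) :
    gam e κ t ≤ gR e κ t / (1 / 2 + gR e κ t) := by
  have h1 := gR_pos he hκ ht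
  have h2 := gR_lt_norm (e := e) (κ := κ) t
  unfold gam
  exact div_le_div_of_nonneg_left h1.le (by linarith) (by linarith)

theorem gam_lt_one (he : 0 < e) (hκ : 0 < κ) {t : ℂ} (ht : 0 < t.re) : gam e κ t < 1 := by
  have h1 := gR_pos he hκ ht
  refine (gam_le he hκ ht).trans_lt ?_
  rw [div_lt_one (by linarith)]
  linarith

/-- **H2** -/
theorem H2 (he : 0 < e) (hκ : 0 < κ) {t : ℂ} (ht : 0 < t.re)
    (ho : qa e κ t * h1 κ t < oo e κ t) :
    gR e κ t ≤ (1 - qa e κ t ^ 2) / (2 * oo e κ t * (oo e κ t - qa e κ t * h1 κ t)) ∧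
      ‖fT e κ t‖ ≤ (1 + qa e κ t * h1 κ t * gR e κ t) / oo e κ t := by
  have hh := h1_nonneg hκ ht
  have hqa := qa_nonneg (e := e) (κ := κ) t
  have hg := gR_pos he hκ ht
  have hoo : 0 < oo e κ t := lt_of_le_of_lt (mul_nonneg hqa hh) ho
  have hH := H1 he hκ ht
  have hf := one_sub_fT he hκ ht
  obtain ⟨a, ha⟩ : ∃ a : ℂ, a = Qk κ t ^ (-(e : ℂ)) := ⟨_, rfl⟩
  obtain ⟨δ, hδ⟩ : ∃ δ : ℂ, δ = fT e κ (shf κ t) - fT e κ t := ⟨_, rfl⟩
  have hqa' : qa e κ t = ‖a‖ := by rw [ha]; rfl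
  have hoo' : oo e κ t = ‖1 + a‖ := by rw [ha]; rfl
  rw [← ha] at hf
  rw [← hδ] at hH
  have h1a : 1 + a ≠ 0 := by
    rw [← norm_pos_iff, ← hoo']
    exact hoo
  have hfe : fT e κ t * (1 + a) = 1 - a * δ := by
    rw [hδ]
    linear_combination -hf
  have hfe' : fT e κ t = (1 - a * δ) / (1 + a) := by
    rw [eq_div_iff h1a]
    exact hfe
  have haδ : ‖a * δ‖ ≤ qa e κ t * h1 κ t * gR e κ t := by
    rw [norm_mul, hqa', mul_assoc]
    exact mul_le_mul_of_nonneg_left hH (norm_nonneg _)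
  constructor
  · have e1 : fT e κ t - 1 / 2 = (1 - a) / (1 + a) / 2 - a * δ / (1 + a) := by
      rw [hfe']
      field_simp
      ring
    have e2 : ((1 - a) / (1 + a)).re = (1 - qa e κ t ^ 2) / oo e κ t ^ 2 := by
      rw [hqa', hoo', ← Complex.normSq_eq_norm_sq, ← Complex.normSq_eq_norm_sq, Complex.div_re,
        ← add_div]
      congr 1
      simp only [Complex.normSq_apply, Complex.sub_re, Complex.sub_im, Complex.add_re,
        Complex.add_im, Complex.one_re, Complex.one_im]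
      ring
    have e3 : gR e κ t = (1 - qa e κ t ^ 2) / oo e κ t ^ 2 / 2 - (a * δ / (1 + a)).re := by
      have h5 := congrArg Complex.re e1
      rw [Complex.sub_re, Complex.sub_re] at h5
      have h6 : ((1 - a) / (1 + a) / 2 : ℂ).re = ((1 - a) / (1 + a)).re / 2 := by
        rw [show ((1 - a) / (1 + a) / 2 : ℂ) = ((1 - a) / (1 + a)) / ((2 : ℝ) : ℂ) by norm_num,
          Complex.div_ofReal_re]
      rw [h6, e2] at h5
      unfold gR
      have h7 : ((1 / 2 : ℂ)).re = 1 / 2 := by norm_num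
      rw [h7] at h5
      exact h5
    have e4 : -(a * δ / (1 + a)).re ≤ qa e κ t * h1 κ t * gR e κ t / oo e κ t := by
      have h5 := Complex.abs_re_le_norm (a * δ / (1 + a))
      rw [norm_div, ← hoo'] at h5
      have h6 : ‖a * δ‖ / oo e κ t ≤ qa e κ t * h1 κ t * gR e κ t / oo e κ t :=
        div_le_div_of_nonneg_right haδ hoo.le
      have h7 := neg_abs_le (a * δ / (1 + a)).re
      linarith
    have e5 : gR e κ t ≤ (1 - qa e κ t ^ 2) / oo e κ t ^ 2 / 2 +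
        qa e κ t * h1 κ t * gR e κ t / oo e κ t := by linarith
    rw [le_div_iff₀ (by
      apply mul_pos (by linarith)
      linarith)]
    have e6 : gR e κ t * (2 * oo e κ t * (oo e κ t - qa e κ t * h1 κ t)) =
        2 * oo e κ t ^ 2 * (gR e κ t - qa e κ t * h1 κ t * gR e κ t / oo e κ t) := by
      field_simp
    rw [e6]
    have e7 : 1 - qa e κ t ^ 2 = 2 * oo e κ t ^ 2 * ((1 - qa e κ t ^ 2) / oo e κ t ^ 2 / 2) := by
      field_simp
    rw [e7]
    apply mul_le_mul_of_nonneg_left _ (by positivity)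
    linarith
  · rw [hfe', norm_div, ← hoo']
    apply div_le_div_of_nonneg_right _ hoo.le
    refine (norm_sub_le _ _).trans ?_
    rw [norm_one]
    have := haδ
    linarith

/-- **H3**, first part -/
theorem H3 (he : 0 < e) (hκ : 0 < κ) {t : ℂ} (ht : 0 < t.re) :
    ‖fT e κ (shf κ t) / fT e κ t - 1‖ ≤ h1 κ t * gam e κ t :=
  div_norm_sub he hκ ht (H1 he hκ ht)

theorem qq_eq (he : 0 < e) (hκ : 0 < κ) {t : ℂ} (ht : 0 < t.re) :
    qq e κ t = Qk κ t ^ (-(e : ℂ)) * (fT e κ (shf κ t) / fT e κ t) := by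
  unfold qq
  rw [one_sub_fT he hκ ht, mul_div_assoc]

theorem qq_exp (he : 0 < e) (hκ : 0 < κ) {t : ℂ} (ht : 0 < t.re) : qq e κ t = exp (-Pl e κ t) :=
  (exp_neg_Pl he hκ ht).symm

theorem qq_lt_one (he : 0 < e) (hκ : 0 < κ) {t : ℂ} (ht : 0 < t.re) : ‖qq e κ t‖ < 1 := by
  rw [qq_exp he hκ ht, norm_exp, neg_re, Real.exp_lt_one_iff]
  have := Pl_re_pos he hκ ht
  linarith

theorem qq_le (he : 0 < e) (hκ : 0 < κ) {t : ℂ} (ht : 0 < t.re) :
    ‖qq e κ t‖ ≤ qa e κ t * (1 + h1 κ t * gam e κ t) := by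
  rw [qq_eq he hκ ht, norm_mul]
  apply mul_le_mul_of_nonneg_left _ (norm_nonneg _)
  have k1 := H3 he hκ ht
  have h2 := norm_add_le (fT e κ (shf κ t) / fT e κ t - 1) 1
  rw [sub_add_cancel, norm_one] at h2
  linarith

theorem Pl_re_eq (he : 0 < e) (hκ : 0 < κ) {t : ℂ} (ht : 0 < t.re) :
    (Pl e κ t).re = e * Real.log ‖Qk κ t‖ - Real.log ‖fT e κ (shf κ t) / fT e κ t‖ := by
  have h1 := fT_norm_pos he hκ ht
  have h2 := fT_norm_pos he hκ (shf_re hκ ht.le)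
  unfold Pl
  rw [Complex.add_re, Complex.sub_re, Complex.log_re, Complex.log_re, Complex.mul_re,
    Complex.log_re, Complex.ofReal_re, Complex.ofReal_im, norm_div, Real.log_div h2.ne' h1.ne']
  ring

/-- **H3**, `Re Pl` -/
theorem Pl_re_le (he : 0 < e) (hκ : 0 < κ) {t : ℂ} (ht : 0 < t.re) (hlt : h1 κ t * gam e κ t < 1) :
    (Pl e κ t).re ≤ e * Real.log ‖Qk κ t‖ - Real.log (1 - h1 κ t * gam e κ t) := by
  rw [Pl_re_eq he hκ ht]
  have k1 := H3 he hκ ht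
  have h2 : 1 - h1 κ t * gam e κ t ≤ ‖fT e κ (shf κ t) / fT e κ t‖ := by
    have h3 := norm_sub_norm_le (1 : ℂ) (1 - fT e κ (shf κ t) / fT e κ t)
    rw [norm_one, norm_sub_rev] at h3
    have h4 : (1 : ℂ) - (1 - fT e κ (shf κ t) / fT e κ t) = fT e κ (shf κ t) / fT e κ t := by ring
    rw [norm_sub_rev, h4] at h3
    have h5 : ‖fT e κ (shf κ t) / fT e κ t - 1‖ = ‖1 - fT e κ (shf κ t) / fT e κ t‖ :=
      norm_sub_rev _ _
    linarith
  have h3 := Real.log_le_log (by linarith) h2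
  linarith

theorem Pl_re_ge (he : 0 < e) (hκ : 0 < κ) {t : ℂ} (ht : 0 < t.re) :
    e * Real.log ‖Qk κ t‖ - Real.log (1 + h1 κ t * gam e κ t) ≤ (Pl e κ t).re := by
  rw [Pl_re_eq he hκ ht]
  have k1 := H3 he hκ ht
  have h2 : ‖fT e κ (shf κ t) / fT e κ t‖ ≤ 1 + h1 κ t * gam e κ t := by
    have h3 := norm_add_le (fT e κ (shf κ t) / fT e κ t - 1) 1
    rw [sub_add_cancel, norm_one] at h3
    linarith
  have h4 : 0 < ‖fT e κ (shf κ t) / fT e κ t‖ := by
    rw [norm_div]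
    exact div_pos (fT_norm_pos he hκ (shf_re hκ ht.le)) (fT_norm_pos he hκ ht)
  have h3 := Real.log_le_log h4 h2
  linarith

/-! ### H5 -/

theorem rt_two {t : ℂ} (ht : 0 < t.re) :
    2 * ‖t - 1‖ = 2 * rt t / (1 - rt t) * (‖t + 1‖ - ‖t - 1‖) := by
  have hb := add_one_pos ht
  obtain ⟨ha0, hab⟩ := rt_aux ht
  have h1 : 0 < ‖t + 1‖ - ‖t - 1‖ := by linarith
  have e1 : 1 - rt t = (‖t + 1‖ - ‖t - 1‖) / ‖t + 1‖ := by
    unfold rt
    field_simp
  rw [e1]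
  unfold rt
  field_simp

/-- **H5** (base point `t`) -/
theorem H5 (he : 0 < e) (hκ : 0 < κ) {t : ℂ} (ht : 0 < t.re) :
    ‖fT e κ 1 / fT e κ t - 1‖ ≤ 2 * rt t / (1 - rt t) * gam e κ t := by
  obtain ⟨ha0, hab⟩ := rt_aux ht
  have h1 := f_pick he hκ (z := 1) (w := t) (by simp) ht
  apply div_norm_sub he hκ ht
  have e1 : ‖(1 : ℂ) + conj t‖ = ‖t + 1‖ := by
    rw [← norm_conj, map_add, conj_conj, map_one, add_comm]
  rw [e1, norm_sub_rev (1 : ℂ) t, rt_two ht] at h1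
  have h2 : 0 < ‖t + 1‖ - ‖t - 1‖ := by linarith
  have h3 : (‖t + 1‖ - ‖t - 1‖) * ‖fT e κ 1 - fT e κ t‖ ≤
      (‖t + 1‖ - ‖t - 1‖) * (2 * rt t / (1 - rt t) * gR e κ t) := by linarith
  exact le_of_mul_le_mul_left h3 h2

theorem gam_one (he : 0 < e) (hκ : 0 < κ) :
    gam e κ 1 = Real.tanh (e * κ / 2) / (1 + Real.tanh (e * κ / 2)) := by
  have hE := Real.exp_pos (-(e * κ))
  have h1 := fT_one he hκ
  have h2 := exp_tanh (e * κ / 2)
  have h3 : -(2 * (e * κ / 2)) = -(e * κ) := by ring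
  rw [h3] at h2
  have h4 : 0 < 1 + Real.tanh (e * κ / 2) := by
    have := tanh_pos' (κ := e * κ / 2) (by positivity)
    linarith
  unfold gam gR
  rw [h1, Complex.ofReal_re, Complex.norm_real, Real.norm_of_nonneg (by positivity)]
  rw [div_eq_div_iff (by positivity) h4.ne']
  have h5 : (0 : ℝ) < 1 + Real.exp (-(e * κ)) := by linarith
  field_simp
  linarith

/-- **H5** (base point `1`) -/
theorem H5' (he : 0 < e) (hκ : 0 < κ) {t : ℂ} (ht : 0 < t.re) :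
    ‖fT e κ t / fT e κ 1 - 1‖ ≤
      2 * rt t / (1 - rt t) * (Real.tanh (e * κ / 2) / (1 + Real.tanh (e * κ / 2))) := by
  obtain ⟨ha0, hab⟩ := rt_aux ht
  have h1 := f_pick he hκ (z := t) (w := 1) ht (by simp)
  rw [← gam_one he hκ]
  apply div_norm_sub he hκ (by simp)
  rw [map_one, rt_two ht] at h1
  have h2 : 0 < ‖t + 1‖ - ‖t - 1‖ := by linarith
  have h3 : (‖t + 1‖ - ‖t - 1‖) * ‖fT e κ t - fT e κ 1‖ ≤
      (‖t + 1‖ - ‖t - 1‖) * (2 * rt t / (1 - rt t) * gR e κ 1) := by linarith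
  exact le_of_mul_le_mul_left h3 h2

/-! ### H6 -/

/-- **H6**, displacement -/
theorem H6 (he : 0 < e) (hκ : 0 < κ) {z w : ℂ} (hz : 0 < z.re) (hw : 0 < w.re) {d : ℝ}
    (hd : ‖z - w‖ ≤ d * w.re) (hd1 : d < 1) :
    ‖Pl e κ z - Pl e κ w‖ ≤ d / (1 - d) * (Pl e κ w).re :=
  pos_disp (Pl_diff he hκ) (fun _ h => Pl_re_pos he hκ h) hz hw hd hd1

/-- **H6**, the quotient of `1 - f` -/
theorem R1_eq (he : 0 < e) (hκ : 0 < κ) {z w : ℂ} (hz : 0 < z.re) (hw : 0 < w.re) {E : ℂ}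
    (hE : E = exp (Pl e κ w - Pl e κ z)) :
    (1 - fT e κ z) / (1 - fT e κ w) - 1 =
      (E - 1) * fT e κ w / (1 + (E - 1) * (1 - fT e κ w)) ∧
      1 + (E - 1) * (1 - fT e κ w) ≠ 0 := by
  have hf1 := fT_ne he hκ hz
  have hf2 := fT_ne he hκ hw
  have hg1 := one_sub_fT_ne he hκ hz
  have hg2 := one_sub_fT_ne he hκ hw
  have e1 := exp_neg_Pl he hκ hz
  have e2 := exp_neg_Pl he hκ hw
  have hE2 : E = ((1 - fT e κ z) / fT e κ z) / ((1 - fT e κ w) / fT e κ w) := by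
    rw [← e1, ← e2, ← exp_sub, hE]
    congr 1
    ring
  have h3 : 1 + (E - 1) * (1 - fT e κ w) = fT e κ w / fT e κ z := by
    rw [hE2]
    field_simp
    ring
  refine ⟨?_, ?_⟩
  · rw [h3, hE2]
    field_simp
    ring
  · rw [h3]
    exact div_ne_zero hf2 hf1

/-! ### H7 -/

theorem log_one_add_bound {z : ℂ} {X : ℝ} (hz : ‖z‖ ≤ X) (hX : X < 1) :
    ‖log (1 + z)‖ ≤ X / (1 - X) := by
  have h1 := Complex.norm_log_one_add_le (hz.trans_lt hX)
  have hz0 := norm_nonneg z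
  have h2 : ‖z‖ ^ 2 * (1 - ‖z‖)⁻¹ / 2 + ‖z‖ ≤ ‖z‖ / (1 - ‖z‖) := by
    have h3 : 0 < 1 - ‖z‖ := by linarith
    rw [← div_eq_mul_inv]
    have h4 : ‖z‖ / (1 - ‖z‖) = ‖z‖ ^ 2 / (1 - ‖z‖) + ‖z‖ := by
      field_simp
      ring
    rw [h4]
    have : 0 ≤ ‖z‖ ^ 2 / (1 - ‖z‖) := by positivity
    linarith
  have h5 : ‖z‖ / (1 - ‖z‖) ≤ X / (1 - X) := by
    rw [div_le_div_iff₀ (by linarith) (by linarith)]
    nlinarith
  linarith

/-- **H7** -/
theorem H7 {q χ : ℂ} {X : ℝ} (hq : ‖q‖ ≤ 1) (hχ : ‖χ‖ ≤ X) (hX : X < 1) :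
    ‖log (1 + q * χ) - log (1 - χ)‖ ≤ ‖1 + q‖ * (X / (1 - X)) := by
  have hX0 : 0 ≤ X := (norm_nonneg _).trans hχ
  have key : ∀ s ∈ Set.Icc (0 : ℝ) 1,
      ‖(fun s : ℝ => log (1 + q * ((s : ℂ) * χ)) - log (1 - (s : ℂ) * χ)) s‖ ≤
        ‖1 + q‖ * (s * X / (1 - s * X)) := by
    have hsX : ∀ s ∈ Set.Icc (0 : ℝ) 1, s * X < 1 := by
      intro s hs
      calc s * X ≤ 1 * X := mul_le_mul_of_nonneg_right hs.2 hX0
        _ = X := one_mul X
        _ < 1 := hX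
    have hn1 : ∀ s ∈ Set.Icc (0 : ℝ) 1, ‖(s : ℂ) * χ‖ ≤ s * X := by
      intro s hs
      rw [norm_mul, Complex.norm_real, Real.norm_of_nonneg hs.1]
      exact mul_le_mul_of_nonneg_left hχ hs.1
    have hn2 : ∀ s ∈ Set.Icc (0 : ℝ) 1, ‖q * ((s : ℂ) * χ)‖ ≤ s * X := by
      intro s hs
      rw [norm_mul]
      calc ‖q‖ * ‖(s : ℂ) * χ‖ ≤ 1 * (s * X) :=
            mul_le_mul hq (hn1 s hs) (norm_nonneg _) zero_le_one
        _ = s * X := one_mul _
    have hd : ∀ s ∈ Set.Icc (0 : ℝ) 1,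
        HasDerivAt (fun s : ℝ => log (1 + q * ((s : ℂ) * χ)) - log (1 - (s : ℂ) * χ))
          (q * χ / (1 + q * ((s : ℂ) * χ)) - (-χ) / (1 - (s : ℂ) * χ)) s := by
      intro s hs
      have d0 : HasDerivAt (fun s : ℝ => (s : ℂ)) 1 s := Complex.ofRealCLM.hasDerivAt
      have d1 : HasDerivAt (fun s : ℝ => 1 + q * ((s : ℂ) * χ)) (q * χ) s := by
        have := ((d0.mul_const χ).const_mul q).const_add 1
        simpa using this
      have d2 : HasDerivAt (fun s : ℝ => 1 - (s : ℂ) * χ) (-χ) s := by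
        have := (d0.mul_const χ).const_sub 1
        simpa using this
      have s1 : 1 + q * ((s : ℂ) * χ) ∈ slitPlane := by
        apply Complex.mem_slitPlane_of_norm_lt_one
        exact (hn2 s hs).trans_lt (hsX s hs)
      have s2 : 1 - (s : ℂ) * χ ∈ slitPlane := by
        rw [sub_eq_add_neg]
        apply Complex.mem_slitPlane_of_norm_lt_one
        rw [norm_neg]
        exact (hn1 s hs).trans_lt (hsX s hs)
      exact (d1.clog_real s1).sub (d2.clog_real s2)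
    have hBd : ∀ s ∈ Set.Icc (0 : ℝ) 1,
        HasDerivAt (fun s : ℝ => ‖1 + q‖ * (s * X / (1 - s * X))) (‖1 + q‖ * (X / (1 - s * X) ^ 2)) s := by
      intro s hs
      have h0 : 1 - s * X ≠ 0 := by have := hsX s hs; intro h; linarith
      have d1 : HasDerivAt (fun s : ℝ => s * X) X s := by
        simpa using (hasDerivAt_id s).mul_const X
      have d2 : HasDerivAt (fun s : ℝ => 1 - s * X) (-X) s := by
        simpa using d1.const_sub 1
      have d3 := (d1.div d2 h0).const_mul ‖1 + q‖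
      refine d3.congr_deriv ?_
      congr 1
      congr 1
      ring
    refine image_norm_le_of_norm_deriv_right_le_deriv_boundary'
      (f' := fun s : ℝ => q * χ / (1 + q * ((s : ℂ) * χ)) - (-χ) / (1 - (s : ℂ) * χ))
      (B := fun s : ℝ => ‖1 + q‖ * (s * X / (1 - s * X)))
      (B' := fun s : ℝ => ‖1 + q‖ * (X / (1 - s * X) ^ 2)) ?_ ?_ ?_ ?_ ?_ ?_
    · exact fun s hs => (hd s hs).continuousAt.continuousWithinAt
    · exact fun s hs => (hd s ⟨hs.1, hs.2.le⟩).hasDerivWithinAt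
    · simp
    · exact fun s hs => (hBd s hs).continuousAt.continuousWithinAt
    · exact fun s hs => (hBd s ⟨hs.1, hs.2.le⟩).hasDerivWithinAt
    · intro s hs
      have hs' : s ∈ Set.Icc (0 : ℝ) 1 := ⟨hs.1, hs.2.le⟩
      have h0 := hsX s hs'
      have m1 : 1 - s * X ≤ ‖1 + q * ((s : ℂ) * χ)‖ := by
        have h2 := norm_sub_le (1 + q * ((s : ℂ) * χ)) (q * ((s : ℂ) * χ))
        rw [add_sub_cancel_right, norm_one] at h2
        have := hn2 s hs'
        linarith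
      have m2 : 1 - s * X ≤ ‖1 - (s : ℂ) * χ‖ := by
        have h2 := norm_add_le (1 - (s : ℂ) * χ) ((s : ℂ) * χ)
        rw [sub_add_cancel, norm_one] at h2
        have := hn1 s hs'
        linarith
      have p0 : 0 < 1 - s * X := by linarith
      have z1 : 1 + q * ((s : ℂ) * χ) ≠ 0 := norm_pos_iff.1 (p0.trans_le m1)
      have z2 : 1 - (s : ℂ) * χ ≠ 0 := norm_pos_iff.1 (p0.trans_le m2)
      have e1 : q * χ / (1 + q * ((s : ℂ) * χ)) - (-χ) / (1 - (s : ℂ) * χ) =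
          (1 + q) * χ / ((1 + q * ((s : ℂ) * χ)) * (1 - (s : ℂ) * χ)) := by
        rw [div_sub_div _ _ z1 z2]
        congr 1
        ring
      show ‖q * χ / (1 + q * ((s : ℂ) * χ)) - (-χ) / (1 - (s : ℂ) * χ)‖ ≤
        ‖1 + q‖ * (X / (1 - s * X) ^ 2)
      rw [e1, norm_div, norm_mul, norm_mul, ← mul_div_assoc]
      apply div_le_div₀ (by positivity)
      · exact mul_le_mul_of_nonneg_left hχ (norm_nonneg _)
      · positivity
      · rw [sq]
        exact mul_le_mul m1 m2 p0.le (norm_nonneg _)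
  have := key 1 (by simp)
  simpa using this

end Pool.Agent.helper12.FF
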