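import Pool.Agent.helper12.FF.Harn2
import Pool.Agent.helper31.EQ.R.DefsF

/-!
# FF-3: the exact identities of the far field scheme

`Q = Qk κ (shf κ τ)`, `m = exp κ`, `Qc² = Q² - (Q - m)² (Q - m⁻²)`, `tc = (Qc - cosh κ)/sinh κ`.
The node has `1 - F = exp (-e log Qc) v (1 - χ)`, `v = fT (shf tc)`, so `F = fT tc (1 + qq χ)`.
-/

namespace Pool.Agent.helper12.FF

open Complex ComplexConjugate Pool.Agent.helper31.EQ.Y Pool.Agent.helper31.EQ.R
open Pool.Agent.helper12.EQL Pool.Agent.helper12.RP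

noncomputable section

/-- `Q - (ideal next ratio)` -/
def Qn (κ : ℝ) (τ : ℂ) : ℂ := Qk κ (shf κ τ)

/-- the square of the centre ratio -/
def Q2c (κ : ℝ) (τ : ℂ) : ℂ :=
  Qn κ τ ^ 2 - (Qn κ τ - (Real.exp κ : ℂ)) ^ 2 * (Qn κ τ - (Real.exp (-(2 * κ)) : ℂ))

/-- the centre ratio -/
def Qc (κ : ℝ) (τ : ℂ) : ℂ := Q2c κ τ ^ ((1 / 2 : ℝ) : ℂ)

/-- the centre position -/
def tc (κ : ℝ) (τ : ℂ) : ℂ := (Qc κ τ - (Real.cosh κ : ℂ)) / (Real.sinh κ : ℂ)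

/-- `log` of the node value divided by `log`s: `LF = log F` -/
def LF (e κ : ℝ) (t χ : ℂ) : ℂ := log (fT e κ t) + log (1 + qq e κ t * χ)

/-- `log` of `g = v (1 - χ)` -/
def Lg (e κ : ℝ) (t χ : ℂ) : ℂ := log (fT e κ (shf κ t)) + log (1 - χ)

/-- `l1` for the ratio pair `Qc`, `Q` and the centre position `t` -/
def l1 (e κ : ℝ) (Qc Q t χ : ℂ) : ℂ := log Qc - log Q + (LF e κ t χ - Lg e κ t χ) / e

/-- `l2` -/
def l2 (e κ : ℝ) (t χ : ℂ) : ℂ := (log (fT e κ 1) - LF e κ t χ) / e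

end

variable {e κ : ℝ}

/-! ### products in the right half plane -/

theorem arg_lt_half {a : ℂ} (ha : 0 < a.re) : |arg a| < Real.pi / 2 :=
  Complex.abs_arg_lt_pi_div_two_iff.2 (Or.inl ha)

theorem log_mul_re {a b : ℂ} (ha : 0 < a.re) (hb : 0 < b.re) : log (a * b) = log a + log b := by
  have h1 := abs_lt.1 (arg_lt_half ha)
  have h2 := abs_lt.1 (arg_lt_half hb)
  apply Complex.log_mul
  · intro h; rw [h] at ha; simp at ha
  · intro h; rw [h] at hb; simp at hb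
  · constructor
    · linarith [h1.1, h2.1]
    · linarith [h1.2, h2.2]

theorem mul_slit_re {a b : ℂ} (ha : 0 < a.re) (hb : 0 < b.re) : a * b ∈ slitPlane := by
  have h1 := abs_lt.1 (arg_lt_half ha)
  have h2 := abs_lt.1 (arg_lt_half hb)
  have ha0 : a ≠ 0 := by intro h; rw [h] at ha; simp at ha
  have hb0 : b ≠ 0 := by intro h; rw [h] at hb; simp at hb
  rw [Complex.mem_slitPlane_iff_arg]
  refine ⟨?_, mul_ne_zero ha0 hb0⟩
  rw [← Complex.log_im, log_mul_re ha hb, Complex.add_im, Complex.log_im, Complex.log_im]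
  intro h
  linarith [h1.2, h2.2]

/-! ### the rigid data -/

theorem Qk_shf (hκ : 0 < κ) {τ : ℂ} (h : 0 < τ.re) :
    Qk κ (shf κ τ) = 2 * (Real.cosh κ : ℂ) - (Qk κ τ)⁻¹ := by
  have hd := shf_den hκ h.le
  have hQ := Qk_ne hκ h
  have hC0 : (Real.cosh κ : ℂ) ≠ 0 := by exact_mod_cast (Real.cosh_pos κ).ne'
  have hT : (Real.tanh κ : ℂ) = (Real.sinh κ : ℂ) / (Real.cosh κ : ℂ) := by
    rw [Real.tanh_eq_sinh_div_cosh]
    push_cast
    rfl
  have hCS : (Real.cosh κ : ℂ) ^ 2 - (Real.sinh κ : ℂ) ^ 2 = 1 := by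
    exact_mod_cast Real.cosh_sq_sub_sinh_sq κ
  have h1 : shf κ τ = ((Real.cosh κ : ℂ) * τ + (Real.sinh κ : ℂ)) / Qk κ τ := by
    have h2 : Qk κ τ = (Real.cosh κ : ℂ) * (1 + (Real.tanh κ : ℂ) * τ) := by
      unfold Qk
      rw [hT]
      field_simp
    unfold shf
    rw [h2, hT]
    rw [hT] at hd
    field_simp
  have h3 : Qk κ (shf κ τ) = (Real.cosh κ : ℂ) + (Real.sinh κ : ℂ) * shf κ τ := rfl
  rw [h3, h1]
  have h4 : Qk κ τ = (Real.cosh κ : ℂ) + (Real.sinh κ : ℂ) * τ := rfl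
  field_simp
  rw [h4]
  linear_combination (-1 : ℂ) * hCS

theorem exp_pair (κ : ℝ) : Real.exp κ * Real.exp (-κ) = 1 := by
  rw [← Real.exp_add]
  simp

theorem two_cosh (κ : ℝ) : 2 * Real.cosh κ = Real.exp κ + Real.exp (-κ) := by
  rw [Real.cosh_eq]
  ring

/-- the rigid radicand -/
theorem rigid_rad (Q : ℂ) (κ : ℝ) :
    Q ^ 2 - (Q - (Real.exp κ : ℂ)) ^ 2 * (Q - (Real.exp (-(2 * κ)) : ℂ)) =
      1 + (1 - (Real.exp (-κ) : ℂ)) ^ 2 * Q * (Q + 1) +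
        Q * (1 - (2 * (Real.cosh κ : ℂ) - Q) ^ 2) := by
  obtain ⟨m, hm⟩ : ∃ m : ℂ, m = (Real.exp κ : ℂ) := ⟨_, rfl⟩
  obtain ⟨μ, hμ⟩ : ∃ μ : ℂ, μ = (Real.exp (-κ) : ℂ) := ⟨_, rfl⟩
  have h1 : m * μ = 1 := by
    rw [hm, hμ]
    exact_mod_cast exp_pair κ
  have h2 : (Real.exp (-(2 * κ)) : ℂ) = μ ^ 2 := by
    rw [hμ]
    have : Real.exp (-(2 * κ)) = Real.exp (-κ) ^ 2 := by
      rw [sq, ← Real.exp_add]
      congr 1
      ring
    exact_mod_cast this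
  have h3 : 2 * (Real.cosh κ : ℂ) = m + μ := by
    rw [hm, hμ]
    exact_mod_cast two_cosh κ
  rw [h2, h3, ← hm, ← hμ]
  linear_combination (m * μ + 1 - 2 * μ * Q + 2 * Q) * h1

/-- `CC f_∞ = (1 - e^{-κ})^{-e}` -/
theorem Ck_finf (he : 0 < e) (hκ : 0 < κ) :
    Real.log (Ck e κ) = -e * Real.log (1 - Real.exp (-κ)) - Real.log (1 / (1 + Real.exp (-(e * κ)))) := by
  have hs : 0 < Real.sinh (κ / 2) := Real.sinh_pos_iff.2 (by linarith)
  have hc := Real.cosh_pos (e * κ / 2)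
  have hE : 0 < 1 + Real.exp (-(e * κ)) := by positivity
  have h1 : 1 - Real.exp (-κ) = 2 * Real.sinh (κ / 2) * Real.exp (-(κ / 2)) := by
    rw [Real.sinh_eq]
    have e1 : Real.exp (-κ) = Real.exp (-(κ / 2)) * Real.exp (-(κ / 2)) := by
      rw [← Real.exp_add]
      congr 1
      ring
    have e2 : Real.exp (κ / 2) * Real.exp (-(κ / 2)) = 1 := exp_pair _
    rw [e1]
    linear_combination -e2
  have h2 : 2 * Real.cosh (e * κ / 2) = Real.exp (e * κ / 2) * (1 + Real.exp (-(e * κ))) := by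
    rw [two_cosh, mul_add, mul_one, ← Real.exp_add]
    congr 2
    ring
  obtain ⟨u, hu⟩ : ∃ u : ℝ, u = 2 * Real.sinh (κ / 2) := ⟨_, rfl⟩
  have hu0 : 0 < u := by rw [hu]; positivity
  have g1 : Real.log (u * Real.exp (-(κ / 2))) = Real.log u + -(κ / 2) := by
    rw [Real.log_mul hu0.ne' (Real.exp_pos _).ne', Real.log_exp]
  have g2 : Real.log (Real.exp (e * κ / 2) * (1 + Real.exp (-(e * κ))) * u ^ (-e)) =
      e * κ / 2 + Real.log (1 + Real.exp (-(e * κ))) + -e * Real.log u := by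
    rw [Real.log_mul (by positivity) (by positivity), Real.log_mul (by positivity) hE.ne',
      Real.log_exp, Real.log_rpow hu0]
  unfold Ck
  rw [h2, h1, ← hu, g1, g2, one_div, Real.log_inv]
  ring

theorem log_Ck (he : 0 < e) (hκ : 0 < κ) :
    (Real.log (Ck e κ) : ℂ) = -(e : ℂ) * (Real.log (1 - Real.exp (-κ)) : ℂ) - log (fT e κ 1) := by
  rw [Ck_finf he hκ, fT_one he hκ, ← Complex.ofReal_log (by positivity)]
  push_cast
  ring

theorem Ck_pos' (hκ : 0 < κ) : 0 < Ck e κ := by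
  unfold Ck
  have hs : 0 < Real.sinh (κ / 2) := Real.sinh_pos_iff.2 (by linarith)
  have hc := Real.cosh_pos (e * κ / 2)
  positivity

/-! ### node data -/

/-- Facts for the centre position `t` and `χ`. -/
theorem node_F (he : 0 < e) (hκ : 0 < κ) {t χ : ℂ} (ht : 0 < t.re) (hχ : ‖χ‖ < 1) :
    0 < (1 + qq e κ t * χ).re ∧ 0 < (1 - χ).re := by
  constructor
  · have h1 : ‖qq e κ t * χ‖ < 1 := by
      rw [norm_mul]
      have := qq_lt_one he hκ ht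
      have h3 := norm_nonneg χ
      have h4 := norm_nonneg (qq e κ t)
      nlinarith
    have h2 := Complex.abs_re_le_norm (qq e κ t * χ)
    have h3 := neg_abs_le (qq e κ t * χ).re
    rw [Complex.add_re, Complex.one_re]
    linarith
  · have h2 := Complex.abs_re_le_norm χ
    have h3 := le_abs_self χ.re
    rw [Complex.sub_re, Complex.one_re]
    linarith

theorem fF_node (he : 0 < e) (hκ : 0 < κ) {t χ : ℂ} (ht : 0 < t.re) :
    fF ((e : ℂ) * log (Qk κ t)) (fT e κ (shf κ t) * (1 - χ)) = fT e κ t * (1 + qq e κ t * χ) := by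
  have h1 := one_sub_fT he hκ ht
  have h2 := fT_ne he hκ ht
  have h3 := Qk_ne hκ ht
  have h4 : exp (-((e : ℂ) * log (Qk κ t))) = Qk κ t ^ (-(e : ℂ)) := by
    rw [cpow_def_of_ne_zero h3]
    congr 1
    ring
  unfold fF
  rw [h4, ← mul_assoc, ← h1]
  unfold qq
  field_simp
  ring

theorem F_slit (he : 0 < e) (hκ : 0 < κ) {t χ : ℂ} (ht : 0 < t.re) (hχ : ‖χ‖ < 1) :
    fF ((e : ℂ) * log (Qk κ t)) (fT e κ (shf κ t) * (1 - χ)) ∈ slitPlane := by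
  rw [fF_node he hκ ht]
  have h1 := half_lt_re_fT he hκ ht
  exact mul_slit_re (by linarith) (node_F he hκ ht hχ).1

theorem g_slit (he : 0 < e) (hκ : 0 < κ) {t χ : ℂ} (ht : 0 < t.re) (hχ : ‖χ‖ < 1) :
    fT e κ (shf κ t) * (1 - χ) ∈ slitPlane := by
  have h1 := half_lt_re_fT he hκ (shf_re hκ ht.le)
  exact mul_slit_re (by linarith) (node_F he hκ ht hχ).2

theorem log_F (he : 0 < e) (hκ : 0 < κ) {t χ : ℂ} (ht : 0 < t.re) (hχ : ‖χ‖ < 1) :
    log (fF ((e : ℂ) * log (Qk κ t)) (fT e κ (shf κ t) * (1 - χ))) = LF e κ t χ := by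
  rw [fF_node he hκ ht]
  have h1 := half_lt_re_fT he hκ ht
  exact log_mul_re (by linarith) (node_F he hκ ht hχ).1

theorem log_g (he : 0 < e) (hκ : 0 < κ) {t χ : ℂ} (ht : 0 < t.re) (hχ : ‖χ‖ < 1) :
    log (fT e κ (shf κ t) * (1 - χ)) = Lg e κ t χ := by
  have h1 := half_lt_re_fT he hκ (shf_re hκ ht.le)
  exact log_mul_re (by linarith) (node_F he hκ ht hχ).2

theorem log_real_mul {c : ℝ} (hc : 0 < c) {z : ℂ} (hz : z ≠ 0) :
    log ((c : ℂ) * z) = (Real.log c : ℂ) + log z := Complex.log_ofReal_mul hc hz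

/-- **Exact radicand.** -/
theorem radF_eq (he : 0 < e) (hκ : 0 < κ) {τ t χ : ℂ} (hτ : 0 < τ.re) (ht : 0 < t.re)
    (hχ : ‖χ‖ < 1) :
    radF e κ τ ((e : ℂ) * log (Qk κ t)) (fT e κ (shf κ t) * (1 - χ)) =
      Q2c κ τ + (exp (l1 e κ (Qk κ t) (Qn κ τ) t χ) - 1) *
        (Qn κ τ * (1 - (2 * (Real.cosh κ : ℂ) - Qn κ τ) ^ 2)) +
      (1 - (Real.exp (-κ) : ℂ)) ^ 2 * Qn κ τ *
        (Qn κ τ * (exp (2 * l1 e κ (Qk κ t) (Qn κ τ) t χ + 2 * l2 e κ t χ) - 1) +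
          (exp (l1 e κ (Qk κ t) (Qn κ τ) t χ + 2 * l2 e κ t χ) - 1)) := by
  have he0 : (e : ℂ) ≠ 0 := by exact_mod_cast he.ne'
  have hQ0 : Qk κ t ≠ 0 := Qk_ne hκ ht
  have hQn0 : Qn κ τ ≠ 0 := Qk_ne hκ (shf_re hκ hτ.le)
  have hm : Real.exp (-κ) < 1 := by rw [Real.exp_lt_one_iff]; linarith
  have hrh : 0 < 1 - Real.exp (-κ) := by linarith
  have hCk := Ck_pos' (e := e) hκ
  have hF0 := slitPlane_ne_zero (F_slit he hκ ht hχ)
  have hg0 := slitPlane_ne_zero (g_slit he hκ ht hχ)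
  have hlF := log_F he hκ ht hχ
  have hlg := log_g he hκ ht hχ
  have hlC := log_Ck he hκ
  obtain ⟨F, hF⟩ : ∃ F, F = fF ((e : ℂ) * log (Qk κ t)) (fT e κ (shf κ t) * (1 - χ)) := ⟨_, rfl⟩
  obtain ⟨g, hg⟩ : ∃ g, g = fT e κ (shf κ t) * (1 - χ) := ⟨_, rfl⟩
  obtain ⟨lr, hlr⟩ : ∃ lr : ℂ, lr = (Real.log (1 - Real.exp (-κ)) : ℂ) := ⟨_, rfl⟩
  rw [← hF] at hlF hF0
  rw [← hg] at hlg hg0
  -- ρ and a as exponentials
  have hrho : rho e κ F = exp (lr + l2 e κ t χ) := by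
    unfold rho
    rw [cpow_def_of_ne_zero (mul_ne_zero (by exact_mod_cast hCk.ne') hF0), log_real_mul hCk hF0, hlF,
      hlC, ← hlr]
    congr 1
    unfold l2
    push_cast
    field_simp
    ring
  have haF : aF e κ ((e : ℂ) * log (Qk κ t)) g =
      exp (-(lr + l2 e κ t χ) - l1 e κ (Qk κ t) (Qn κ τ) t χ - log (Qn κ τ)) := by
    unfold aF
    have h1 : ((Ck e κ ^ (1 / e) : ℝ) : ℂ) = exp ((Real.log (Ck e κ) : ℂ) * ((1 / e : ℝ) : ℂ)) := by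
      rw [Real.rpow_def_of_pos hCk]
      push_cast
      rfl
    rw [h1, cpow_def_of_ne_zero hg0, hlg, hlC, ← hlr, ← exp_add, ← exp_add]
    congr 1
    unfold l1 l2
    push_cast
    field_simp
    ring
  have hQτ : (Qk κ τ)⁻¹ = 2 * (Real.cosh κ : ℂ) - Qn κ τ := by
    unfold Qn
    rw [Qk_shf hκ hτ]
    ring
  have hrig : Q2c κ τ = 1 + (1 - (Real.exp (-κ) : ℂ)) ^ 2 * Qn κ τ * (Qn κ τ + 1) +
        Qn κ τ * (1 - (2 * (Real.cosh κ : ℂ) - Qn κ τ) ^ 2) := rigid_rad (Qn κ τ) κ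
  have hexr : exp lr = 1 - (Real.exp (-κ) : ℂ) := by
    rw [hlr, ← Complex.ofReal_exp, Real.exp_log hrh]
    push_cast
    rfl
  have hexQ : exp (log (Qn κ τ)) = Qn κ τ := exp_log hQn0
  unfold radF
  rw [← hF, ← hg, hrho, haF, ← inv_pow, hQτ]
  obtain ⟨A, hA⟩ : ∃ A, A = l1 e κ (Qk κ t) (Qn κ τ) t χ := ⟨_, rfl⟩
  obtain ⟨B, hB⟩ : ∃ B, B = l2 e κ t χ := ⟨_, rfl⟩
  obtain ⟨q, hq⟩ : ∃ q, q = log (Qn κ τ) := ⟨_, rfl⟩
  rw [hrig, ← hA, ← hB, ← hq, ← hexr]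
  rw [← hq] at hexQ
  have e1 : (1 : ℂ) / exp (-(lr + B) - A - q) = exp (lr + B + A + q) := by
    rw [one_div, ← exp_neg]
    congr 1
    ring
  have e2 : ∀ w : ℂ, w / exp (-(lr + B) - A - q) = w * exp (lr + B + A + q) := by
    intro w
    rw [div_eq_mul_inv, ← exp_neg]
    congr 2
    ring
  have e3 : ∀ w : ℂ, w / exp (lr + B) = w * exp (-(lr + B)) := by
    intro w
    rw [div_eq_mul_inv, ← exp_neg]
  rw [e2, e2, e3]
  have f1 : exp (lr + B + A + q) = exp lr * exp B * exp A * Qn κ τ := by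
    rw [exp_add, exp_add, exp_add, hexQ]
  have f2 : exp (-(lr + B)) * exp (lr + B + A + q) = exp A * Qn κ τ := by
    rw [← exp_add, ← hexQ, ← exp_add]
    congr 1
    ring
  have f3 : exp (lr + B) = exp lr * exp B := exp_add _ _
  have f4 : exp (2 * A + 2 * B) = exp A ^ 2 * exp B ^ 2 := by
    rw [exp_add, two_mul, exp_add, two_mul, exp_add]
    ring
  have f5 : exp (A + 2 * B) = exp A * exp B ^ 2 := by
    rw [exp_add, two_mul, exp_add]
    ring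
  rw [f4, f5]
  linear_combination (1 : ℂ) * (exp lr * exp B * exp A * Qn κ τ + exp (lr + B + A + q) +
    exp (lr + B)) * f1 + (1 - (2 * (Real.cosh κ : ℂ) - Qn κ τ) ^ 2) * f2 +
    (exp lr * exp B * exp A * Qn κ τ) * f3

end Pool.Agent.helper12.FF
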