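import Pool.Agent.helper12.FF.Harn2

/-!
# FF-5: values of the rigid sum by two or three terms

`fT t = 1/(1 + q) + O(|q| |1 - q|/(2 |1 + q| (σ |1 + q| - |q|)))`, `q = Qk t ^ (-e)`, for
`|t - 1| ≤ exp (-2κσ) |t + 1|`, `σ ≥ 1`.
-/

namespace Pool.Agent.helper12.FF

open Complex ComplexConjugate Pool.Agent.helper31.EQ.Y Pool.Agent.helper31.EQ.R
open Pool.Agent.helper12.EQL Pool.Agent.helper12.RP

variable {e κ : ℝ}

private theorem sinh_mul_le {κ : ℝ} (hκ : 0 < κ) {σ : ℝ} (hσ : 1 ≤ σ) :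
    σ * Real.sinh κ ≤ Real.sinh (κ * σ) := by
  have hd : ∀ y : ℝ, HasDerivAt (fun y => Real.sinh (κ * y) - y * Real.sinh κ)
      (κ * Real.cosh (κ * y) - Real.sinh κ) y := by
    intro y
    have h1 : HasDerivAt (fun y => κ * y) κ y := by
      simpa using (hasDerivAt_id y).const_mul κ
    have h2 : HasDerivAt (fun y => Real.sinh (κ * y)) (Real.cosh (κ * y) * κ) y :=
      HasDerivAt.comp (h := fun y => κ * y) (h₂ := Real.sinh) y
        (Real.hasDerivAt_sinh (κ * y)) h1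
    have h3 : HasDerivAt (fun y => y * Real.sinh κ) (1 * Real.sinh κ) y :=
      (hasDerivAt_id y).mul_const (Real.sinh κ)
    have h4 := h2.sub h3
    rw [one_mul, mul_comm (Real.cosh (κ * y)) κ] at h4
    exact h4
  have hs : Real.sinh κ ≤ κ * Real.cosh κ := by
    have h1 := tanh_le' hκ
    rw [Real.tanh_eq_sinh_div_cosh, div_le_iff₀ (Real.cosh_pos κ)] at h1
    exact h1
  have hmono : MonotoneOn (fun y => Real.sinh (κ * y) - y * Real.sinh κ) (Set.Ici 1) := by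
    apply monotoneOn_of_deriv_nonneg (convex_Ici 1)
    · exact fun y _ => (hd y).continuousAt.continuousWithinAt
    · exact fun y _ => (hd y).differentiableAt.differentiableWithinAt
    · intro y hy
      rw [interior_Ici] at hy
      rw [(hd y).deriv]
      have h1 : 1 < y := hy
      have h2 : Real.cosh κ ≤ Real.cosh (κ * y) := by
        rw [Real.cosh_le_cosh, abs_of_pos hκ, abs_of_pos (by positivity)]
        nlinarith
      nlinarith [mul_le_mul_of_nonneg_left h2 hκ.le]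
  have h2 := hmono (Set.mem_Ici.2 le_rfl) (Set.mem_Ici.2 hσ) hσ
  simp at h2
  linarith

/-- `h1 ≤ 1/σ` for `rt t ≤ exp (-2κσ)` -/
theorem h1_le_inv (hκ : 0 < κ) {t : ℂ} (ht : 0 < t.re) {σ : ℝ} (hσ : 1 ≤ σ)
    (h : rt t ≤ Real.exp (-(2 * (κ * σ)))) : h1 κ t ≤ 1 / σ := by
  have hσ0 : 0 < σ := by linarith
  have hk : Real.exp (-(2 * κ)) < 1 := by
    rw [Real.exp_lt_one_iff]
    linarith
  have hk0 := Real.exp_pos (-(2 * κ))
  have ha0 := rt_nonneg t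
  have ha1 := rt_lt_one ht
  have hb1 : Real.exp (-(2 * (κ * σ))) < 1 := by
    rw [Real.exp_lt_one_iff]
    have := mul_pos hκ hσ0
    linarith
  have hb0 := Real.exp_pos (-(2 * (κ * σ)))
  obtain ⟨k, hkd⟩ : ∃ k, k = Real.exp (-(2 * κ)) := ⟨_, rfl⟩
  obtain ⟨b, hb⟩ : ∃ b, b = Real.exp (-(2 * (κ * σ))) := ⟨_, rfl⟩
  obtain ⟨a, ha⟩ : ∃ a, a = rt t := ⟨_, rfl⟩
  rw [← hkd] at hk hk0
  rw [← hb] at hb1 hb0 h
  rw [← ha] at ha0 ha1 h
  have hmul : k * a ≤ 1 * 1 := mul_le_mul hk.le ha1.le ha0 (by norm_num)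
  -- monotone
  have h1m : (1 + a) * (1 - k * a) / ((1 - a) * (1 + k * a)) ≤
      (1 + b) * (1 - k * b) / ((1 - b) * (1 + k * b)) := by
    have p1 : 0 < 1 - a := by linarith
    have p2 : 0 < 1 - b := by linarith
    have p3 : 0 < 1 + k * a := by positivity
    have p4 : 0 < 1 + k * b := by positivity
    rw [div_le_div_iff₀ (by positivity) (by positivity)]
    have h3 : (1 + b) * (1 - k * b) * ((1 - a) * (1 + k * a)) -
        (1 + a) * (1 - k * a) * ((1 - b) * (1 + k * b)) =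
        2 * ((b - a) * ((1 - k) * (1 + k * (a * b)))) := by ring
    have h4 : 0 ≤ (b - a) * ((1 - k) * (1 + k * (a * b))) := by
      apply mul_nonneg (by linarith)
      have : 0 < 1 - k := by linarith
      positivity
    linarith
  -- value at b
  have h2 : (1 + b) * (1 - k * b) / ((1 - b) * (1 + k * b)) - 1 =
      Real.sinh κ / (Real.sinh (κ * σ) * Real.cosh (κ * (σ + 1))) := by
    have hs : 0 < Real.sinh (κ * σ) := Real.sinh_pos_iff.2 (by positivity)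
    have hc : 0 < Real.cosh (κ * (σ + 1)) := Real.cosh_pos _
    obtain ⟨x, hx⟩ : ∃ x, x = Real.exp (-(κ * σ)) := ⟨_, rfl⟩
    obtain ⟨z, hz⟩ : ∃ z, z = Real.exp (-κ) := ⟨_, rfl⟩
    have hx0 : 0 < x := by rw [hx]; exact Real.exp_pos _
    have hz0 : 0 < z := by rw [hz]; exact Real.exp_pos _
    have hbx : b = x * x := by
      rw [hb, hx, ← Real.exp_add]
      congr 1
      ring
    have hkz : k = z * z := by
      rw [hkd, hz, ← Real.exp_add]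
      congr 1
      ring
    have e1 : Real.sinh κ = (z⁻¹ - z) / 2 := by
      rw [Real.sinh_eq, hz, ← Real.exp_neg, neg_neg]
    have e2 : Real.sinh (κ * σ) = (x⁻¹ - x) / 2 := by
      rw [Real.sinh_eq, hx, ← Real.exp_neg, neg_neg]
    have e3 : Real.cosh (κ * (σ + 1)) = ((x * z)⁻¹ + x * z) / 2 := by
      rw [Real.cosh_eq, hx, hz, ← Real.exp_add, ← Real.exp_neg]
      congr 2
      · congr 1
        ring
      · congr 1
        ring
    have hx1 : 0 < 1 - x * x := by rw [← hbx]; linarith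
    have hz1 : 0 < 1 - z * z := by rw [← hkz]; linarith
    have hxz : 0 < 1 + x * x * (z * z) := by positivity
    have f1 : x⁻¹ - x = (1 - x * x) / x := by field_simp
    have f2 : (x * z)⁻¹ + x * z = (1 + x * x * (z * z)) / (x * z) := by field_simp
    have f3 : z⁻¹ - z = (1 - z * z) / z := by field_simp
    rw [e1, e2, e3, f1, f2, f3, hbx, hkz]
    have g1 : (1 - x * x) ≠ 0 := hx1.ne'
    have g2 : (1 + z * z * (x * x)) ≠ 0 := by positivity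
    have g3 : (1 + x * x * (z * z)) ≠ 0 := hxz.ne'
    rw [div_sub_one (mul_ne_zero g1 g2), div_eq_div_iff (mul_ne_zero g1 g2) (by positivity)]
    field_simp
    ring
  have h3 : Real.sinh κ / (Real.sinh (κ * σ) * Real.cosh (κ * (σ + 1))) ≤ 1 / σ := by
    have hs : 0 < Real.sinh (κ * σ) := Real.sinh_pos_iff.2 (by positivity)
    have hc : 1 ≤ Real.cosh (κ * (σ + 1)) := Real.one_le_cosh _
    have h4 := sinh_mul_le hκ hσ
    rw [div_le_div_iff₀ (by positivity) hσ0, one_mul]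
    calc Real.sinh κ * σ = σ * Real.sinh κ := by ring
      _ ≤ Real.sinh (κ * σ) := h4
      _ ≤ Real.sinh (κ * σ) * Real.cosh (κ * (σ + 1)) := le_mul_of_one_le_right hs.le hc
  unfold h1
  rw [← ha, ← hkd]
  linarith

/-- **One term.** -/
theorem fT_last (he : 0 < e) (hκ : 0 < κ) {t : ℂ} (ht : 0 < t.re) {σ : ℝ} (hσ : 1 ≤ σ)
    (h : rt t ≤ Real.exp (-(2 * (κ * σ)))) {q : ℂ} (hq : q = Qk κ t ^ (-(e : ℂ)))
    (hpos : ‖q‖ < σ * ‖1 + q‖) :
    ‖fT e κ t - 1 / (1 + q)‖ ≤ ‖q‖ * ‖1 - q‖ / (2 * ‖1 + q‖ * (σ * ‖1 + q‖ - ‖q‖)) := by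
  have hσ0 : 0 < σ := by linarith
  have hh := h1_le_inv hκ ht hσ h
  have hH := H1 he hκ ht
  have hg := gR_pos he hκ ht
  have hadd := fT_add he hκ ht
  rw [← hq] at hadd
  have hq0 := norm_nonneg q
  have ho : 0 < ‖1 + q‖ := by
    rcases (norm_nonneg (1 + q)).lt_or_eq with h1 | h1
    · exact h1
    · rw [← h1, mul_zero] at hpos
      linarith
  have h1q : 1 + q ≠ 0 := norm_pos_iff.1 ho
  have hd : ‖fT e κ (shf κ t) - fT e κ t‖ ≤ 1 / σ * gR e κ t :=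
    hH.trans (mul_le_mul_of_nonneg_right hh hg.le)
  have e1 : fT e κ t - 1 / (1 + q) = -(q * (fT e κ (shf κ t) - fT e κ t)) / (1 + q) := by
    rw [eq_div_iff h1q, sub_mul, div_mul_cancel₀ _ h1q]
    linear_combination hadd
  have e2 : ‖fT e κ t - 1 / (1 + q)‖ ≤ ‖q‖ * (1 / σ * gR e κ t) / ‖1 + q‖ := by
    rw [e1, norm_div, norm_neg, norm_mul]
    exact div_le_div_of_nonneg_right (mul_le_mul_of_nonneg_left hd hq0) ho.le
  -- bound of g
  have e3 : gR e κ t ≤ ‖1 - q‖ / (2 * ‖1 + q‖) + ‖q‖ * (1 / σ * gR e κ t) / ‖1 + q‖ := by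
    have f1 : ((gR e κ t : ℝ) : ℂ).re = (fT e κ t - 1 / 2).re := by
      unfold gR
      simp
    have f2 : fT e κ t - 1 / 2 = (1 - q) / (2 * (1 + q)) + (fT e κ t - 1 / (1 + q)) := by
      field_simp
      ring
    calc gR e κ t = (fT e κ t - 1 / 2).re := by rw [← f1]; simp
      _ ≤ ‖fT e κ t - 1 / 2‖ := Complex.re_le_norm _
      _ ≤ ‖(1 - q) / (2 * (1 + q))‖ + ‖fT e κ t - 1 / (1 + q)‖ := by
          rw [f2]
          exact norm_add_le _ _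
      _ ≤ _ := by
          rw [norm_div, norm_mul, Complex.norm_ofNat]
          exact add_le_add le_rfl e2
  have h5 : 0 < σ * ‖1 + q‖ - ‖q‖ := by linarith
  have e4 : gR e κ t * (σ * ‖1 + q‖ - ‖q‖) ≤ σ * ‖1 - q‖ / 2 := by
    have f1 : gR e κ t * (2 * σ * ‖1 + q‖) ≤
        (‖1 - q‖ / (2 * ‖1 + q‖) + ‖q‖ * (1 / σ * gR e κ t) / ‖1 + q‖) * (2 * σ * ‖1 + q‖) :=
      mul_le_mul_of_nonneg_right e3 (by positivity)
    have f2 : (‖1 - q‖ / (2 * ‖1 + q‖) + ‖q‖ * (1 / σ * gR e κ t) / ‖1 + q‖) *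
        (2 * σ * ‖1 + q‖) = σ * ‖1 - q‖ + 2 * (‖q‖ * gR e κ t) := by
      field_simp
    rw [f2] at f1
    linarith
  have e5 : gR e κ t ≤ σ * ‖1 - q‖ / 2 / (σ * ‖1 + q‖ - ‖q‖) := by
    rw [le_div_iff₀ h5]
    exact e4
  calc ‖fT e κ t - 1 / (1 + q)‖ ≤ ‖q‖ * (1 / σ * gR e κ t) / ‖1 + q‖ := e2
    _ ≤ ‖q‖ * (1 / σ * (σ * ‖1 - q‖ / 2 / (σ * ‖1 + q‖ - ‖q‖))) / ‖1 + q‖ := by
        apply div_le_div_of_nonneg_right _ ho.le
        apply mul_le_mul_of_nonneg_left _ hq0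
        exact mul_le_mul_of_nonneg_left e5 (by positivity)
    _ = ‖q‖ * ‖1 - q‖ / (2 * ‖1 + q‖ * (σ * ‖1 + q‖ - ‖q‖)) := by
        field_simp

/-- `rt` of the shifted point -/
theorem rt_shf_le (hκ : 0 < κ) {t : ℂ} (ht : 0 < t.re) {σ : ℝ}
    (h : rt t ≤ Real.exp (-(2 * (κ * σ)))) :
    rt (shf κ t) ≤ Real.exp (-(2 * (κ * (σ + 1)))) := by
  rw [rt_shf_eq hκ ht]
  have h2 : Real.exp (-(2 * (κ * (σ + 1)))) =
      Real.exp (-(2 * κ)) * Real.exp (-(2 * (κ * σ))) := by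
    rw [← Real.exp_add]
    congr 1
    ring
  rw [h2]
  exact mul_le_mul_of_nonneg_left h (Real.exp_pos _).le

/-- error bound of `fT_last` -/
noncomputable def lastE (σ : ℝ) (q : ℂ) : ℝ :=
  ‖q‖ * ‖1 - q‖ / (2 * ‖1 + q‖ * (σ * ‖1 + q‖ - ‖q‖))

/-- **Two terms and the last.** -/
theorem fT_two (he : 0 < e) (hκ : 0 < κ) {t : ℂ} (ht : 0 < t.re) {σ : ℝ} (hσ : 0 ≤ σ)
    (h : rt t ≤ Real.exp (-(2 * (κ * σ)))) {q1 q2 q3 : ℂ} (h1 : q1 = Qk κ t ^ (-(e : ℂ)))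
    (h2 : q2 = Qk κ (shf κ t) ^ (-(e : ℂ)))
    (h3 : q3 = Qk κ (shf κ (shf κ t)) ^ (-(e : ℂ))) (hpos : ‖q3‖ < (σ + 2) * ‖1 + q3‖) :
    ‖fT e κ t - (1 - q1 + q1 * q2 / (1 + q3))‖ ≤ ‖q1 * q2‖ * lastE (σ + 2) q3 := by
  have ht1 := shf_re hκ ht.le
  have ht2 := shf_re hκ ht1.le
  have r1 := rt_shf_le hκ ht h
  have r2 := rt_shf_le hκ ht1 r1
  rw [show σ + 1 + 1 = σ + 2 by ring] at r2
  have hl := fT_last he hκ ht2 (by linarith) r2 h3 hpos
  have a1 := fT_add he hκ ht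
  have a2 := fT_add he hκ ht1
  rw [← h1] at a1
  rw [← h2] at a2
  have e1 : fT e κ t - (1 - q1 + q1 * q2 / (1 + q3)) =
      (q1 * q2) * (fT e κ (shf κ (shf κ t)) - 1 / (1 + q3)) := by
    rw [mul_sub, mul_one_div]
    linear_combination a1 - q1 * a2
  rw [e1, norm_mul]
  exact mul_le_mul_of_nonneg_left hl (norm_nonneg _)

/-- **Three terms and the last.** -/
theorem fT_three (he : 0 < e) (hκ : 0 < κ) {t : ℂ} (ht : 0 < t.re) {σ : ℝ} (hσ : 0 ≤ σ)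
    (h : rt t ≤ Real.exp (-(2 * (κ * σ)))) {q1 q2 q3 q4 : ℂ} (h1 : q1 = Qk κ t ^ (-(e : ℂ)))
    (h2 : q2 = Qk κ (shf κ t) ^ (-(e : ℂ)))
    (h3 : q3 = Qk κ (shf κ (shf κ t)) ^ (-(e : ℂ)))
    (h4 : q4 = Qk κ (shf κ (shf κ (shf κ t))) ^ (-(e : ℂ)))
    (hpos : ‖q4‖ < (σ + 3) * ‖1 + q4‖) :
    ‖fT e κ t - (1 - q1 + q1 * q2 - q1 * q2 * q3 / (1 + q4))‖ ≤
      ‖q1 * q2 * q3‖ * lastE (σ + 3) q4 := by
  have ht1 := shf_re hκ ht.le
  have r1 := rt_shf_le hκ ht h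
  have hl := fT_two he hκ ht1 (σ := σ + 1) (by linarith) r1 h2 h3 h4
    (by rw [show σ + 1 + 2 = σ + 3 by ring]; exact hpos)
  rw [show σ + 1 + 2 = σ + 3 by ring] at hl
  have a1 := fT_add he hκ ht
  rw [← h1] at a1
  have e1 : fT e κ t - (1 - q1 + q1 * q2 - q1 * q2 * q3 / (1 + q4)) =
      -q1 * (fT e κ (shf κ t) - (1 - q2 + q2 * q3 / (1 + q4))) := by
    linear_combination a1
  rw [e1, norm_mul, norm_neg]
  calc ‖q1‖ * ‖fT e κ (shf κ t) - (1 - q2 + q2 * q3 / (1 + q4))‖ ≤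
      ‖q1‖ * (‖q2 * q3‖ * lastE (σ + 3) q4) := mul_le_mul_of_nonneg_left hl (norm_nonneg _)
    _ = ‖q1 * q2 * q3‖ * lastE (σ + 3) q4 := by
        rw [norm_mul, norm_mul, norm_mul]
        ring

end Pool.Agent.helper12.FF
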