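import Pool.Agent.helper12.FF.Last

/-!
# FF-6: the rigid sum by one term, second order near `κ = 0`

`fT t = 1/(1 + q) + O(e |T² - K²| |q|/|1 + q|³)`, `q = Qk t ^ (-e)`, `T = K t`, `K = sinh κ`.
-/

namespace Pool.Agent.helper12.FF

open Complex ComplexConjugate Pool.Agent.helper31.EQ.Y Pool.Agent.helper31.EQ.R
open Pool.Agent.helper12.EQL Pool.Agent.helper12.RP

variable {e κ : ℝ}

theorem rt_mul {t : ℂ} (ht : 0 < t.re) : rt t * ‖t + 1‖ ^ 2 = ‖t - 1‖ * ‖t + 1‖ := by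
  have h := add_one_pos ht
  unfold rt
  field_simp

/-- `|Q|² - 1` -/
theorem Qk_sq_sub (hκ : 0 < κ) {t : ℂ} (ht : 0 < t.re) :
    ‖Qk κ t‖ ^ 2 - 1 = (Real.exp (2 * κ) - 1) *
      (1 - Real.exp (-(2 * κ)) * rt t ^ 2) * ‖t + 1‖ ^ 2 / 4 := by
  have h := add_one_pos ht
  have e1 : (1 - Real.exp (-(2 * κ)) * rt t ^ 2) * ‖t + 1‖ ^ 2 =
      ‖t + 1‖ ^ 2 - Real.exp (-(2 * κ)) * ‖t - 1‖ ^ 2 := by
    unfold rt
    field_simp
  have e2 : ‖Qk κ t‖ ^ 2 = Real.cosh κ ^ 2 + 2 * Real.cosh κ * Real.sinh κ * t.re +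
      Real.sinh κ ^ 2 * ‖t‖ ^ 2 := by
    unfold Qk
    rw [← Complex.normSq_eq_norm_sq, ← Complex.normSq_eq_norm_sq, Complex.normSq_apply,
      Complex.normSq_apply]
    simp only [Complex.add_re, Complex.add_im, Complex.mul_re, Complex.mul_im, Complex.ofReal_re,
      Complex.ofReal_im]
    ring
  rw [mul_assoc, e1, e2, sub_sq, add_sq']
  have e3 : Real.cosh κ = (Real.exp κ + Real.exp (-κ)) / 2 := Real.cosh_eq κ
  have e4 : Real.sinh κ = (Real.exp κ - Real.exp (-κ)) / 2 := Real.sinh_eq κ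
  have e5 : Real.exp (2 * κ) = Real.exp κ ^ 2 := by
    rw [sq, ← Real.exp_add]
    congr 1
    ring
  have e6 : Real.exp (-(2 * κ)) = Real.exp (-κ) ^ 2 := by
    rw [sq, ← Real.exp_add]
    congr 1
    ring
  have e7 : Real.exp κ * Real.exp (-κ) = 1 := by
    rw [← Real.exp_add]
    simp
  rw [e3, e4, e5, e6]
  obtain ⟨a, ha⟩ : ∃ a, a = Real.exp κ := ⟨_, rfl⟩
  obtain ⟨b, hb⟩ : ∃ b, b = Real.exp (-κ) := ⟨_, rfl⟩
  rw [← ha, ← hb] at e7 ⊢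
  have hb' : b = a⁻¹ := (inv_eq_of_mul_eq_one_right e7).symm
  have ha0 : a ≠ 0 := by
    intro h0
    rw [h0] at e7
    simp at e7
  rw [hb']
  field_simp
  ring

/-- `1 - |q|² ≤ e (|Q|² - 1)` -/
theorem one_sub_qa_sq (he : 0 < e) (hκ : 0 < κ) {t : ℂ} (ht : 0 < t.re) :
    1 - qa e κ t ^ 2 ≤ e * (‖Qk κ t‖ ^ 2 - 1) := by
  have hQ := Qk_ne hκ ht
  have hQn : 0 < ‖Qk κ t‖ := norm_pos_iff.2 hQ
  have h1 : qa e κ t = Real.exp (-(e * Real.log ‖Qk κ t‖)) := by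
    unfold qa
    rw [cpow_def_of_ne_zero hQ, Complex.norm_exp]
    congr 1
    rw [Complex.mul_re, Complex.log_re, Complex.neg_re, Complex.neg_im, Complex.ofReal_re,
      Complex.ofReal_im]
    ring
  have h2 : qa e κ t ^ 2 = Real.exp (-(e * (2 * Real.log ‖Qk κ t‖))) := by
    rw [h1, sq, ← Real.exp_add]
    congr 1
    ring
  have h3 := Real.add_one_le_exp (-(e * (2 * Real.log ‖Qk κ t‖)))
  have h4 : 2 * Real.log ‖Qk κ t‖ ≤ ‖Qk κ t‖ ^ 2 - 1 := by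
    have h5 := Real.log_le_sub_one_of_pos (pow_pos hQn 2)
    rw [Real.log_pow] at h5
    push_cast at h5
    exact h5
  rw [h2]
  nlinarith [mul_le_mul_of_nonneg_left h4 he.le]

/-- `h1` in closed form -/
theorem h1_closed {t : ℂ} (ht : 0 < t.re) :
    h1 κ t = 2 * (rt t * (1 - Real.exp (-(2 * κ)))) / ((1 - rt t) * (1 + Real.exp (-(2 * κ)) * rt t)) := by
  have ha0 := rt_nonneg t
  have ha1 := rt_lt_one ht
  have hk0 := Real.exp_pos (-(2 * κ))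
  have p1 : (1 - rt t) ≠ 0 := by linarith
  have p2 : (1 + Real.exp (-(2 * κ)) * rt t) ≠ 0 := by positivity
  unfold h1
  field_simp
  ring

/-- the key product -/
theorem h1_mul_qa (he : 0 < e) (hκ : 0 < κ) {t : ℂ} (ht : 0 < t.re) {σ : ℝ} (hσ : 1 ≤ σ)
    (h : rt t ≤ Real.exp (-(2 * (κ * σ)))) :
    h1 κ t * (1 - qa e κ t ^ 2) ≤
      2 * (1 + 1 / (2 * σ)) * (e * (Real.sinh κ ^ 2 * (‖t - 1‖ * ‖t + 1‖))) := by
  have hσ0 : 0 < σ := by linarith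
  have ha0 := rt_nonneg t
  have ha1 := rt_lt_one ht
  have hk0 := Real.exp_pos (-(2 * κ))
  have hh := h1_le_inv hκ ht hσ h
  have hh0 := h1_nonneg hκ ht
  have hq := one_sub_qa_sq he hκ ht
  rw [Qk_sq_sub hκ ht] at hq
  have h2 := mul_le_mul_of_nonneg_left hq hh0
  refine h2.trans ?_
  have hc := h1_closed (κ := κ) ht
  rw [← rt_mul ht]
  obtain ⟨a, ha⟩ : ∃ a, a = rt t := ⟨_, rfl⟩
  obtain ⟨k, hk⟩ : ∃ k, k = Real.exp (-(2 * κ)) := ⟨_, rfl⟩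
  obtain ⟨s, hs⟩ : ∃ s, s = ‖t + 1‖ := ⟨_, rfl⟩
  obtain ⟨m, hm⟩ : ∃ m, m = h1 κ t := ⟨_, rfl⟩
  have e1 : Real.sinh κ ^ 2 = (Real.exp (2 * κ) - 1) * (1 - k) / 4 := by
    have e4 : Real.sinh κ = (Real.exp κ - Real.exp (-κ)) / 2 := Real.sinh_eq κ
    have e5 : Real.exp (2 * κ) = Real.exp κ ^ 2 := by
      rw [sq, ← Real.exp_add]
      congr 1
      ring
    have e6 : Real.exp (-(2 * κ)) = Real.exp (-κ) ^ 2 := by
      rw [sq, ← Real.exp_add]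
      congr 1
      ring
    have e7 : Real.exp κ * Real.exp (-κ) = 1 := by
      rw [← Real.exp_add]
      simp
    rw [hk, e4, e5, e6]
    linear_combination (-(1 / 2) + (Real.exp κ * Real.exp (-κ) + 1) / 4) * e7
  rw [e1]
  rw [← ha, ← hk] at hc ⊢
  rw [← ha] at ha0 ha1
  rw [← hk] at hk0
  rw [← hm] at hc hh hh0 ⊢
  rw [← hs]
  have p1 : 0 < 1 - a := by linarith
  have p2 : 0 < 1 + k * a := by positivity
  -- (1 - k a²)/((1-a)(1+ka)) = 1 + m/2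
  have e2 : 1 - k * a ^ 2 = (1 + m / 2) * ((1 - a) * (1 + k * a)) := by
    rw [hc]
    field_simp
    ring
  have e3 : m * ((1 - a) * (1 + k * a)) = 2 * (a * (1 - k)) := by
    rw [hc]
    field_simp
  have hE : 0 < Real.exp (2 * κ) - 1 := by
    have : 1 < Real.exp (2 * κ) := by
      rw [Real.one_lt_exp_iff]
      positivity
    linarith
  have hk1 : 0 < 1 - k := by
    have : k < 1 := by
      rw [hk, Real.exp_lt_one_iff]
      linarith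
    linarith
  have e4 : m * (e * ((Real.exp (2 * κ) - 1) * (1 - k * a ^ 2) * s ^ 2 / 4)) =
      (1 + m / 2) * (2 * (e * ((Real.exp (2 * κ) - 1) * (1 - k) / 4 * (a * s ^ 2)))) := by
    rw [e2]
    linear_combination (e * (Real.exp (2 * κ) - 1) * s ^ 2 / 4 * (1 + m / 2)) * e3
  rw [e4]
  have h5 : 1 + m / 2 ≤ 1 + 1 / (2 * σ) := by
    have : 1 / (2 * σ) = 1 / σ / 2 := by ring
    rw [this]
    linarith
  have h6 : 0 ≤ 2 * (e * ((Real.exp (2 * κ) - 1) * (1 - k) / 4 * (a * s ^ 2))) := by positivity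
  calc (1 + m / 2) * (2 * (e * ((Real.exp (2 * κ) - 1) * (1 - k) / 4 * (a * s ^ 2)))) ≤
      (1 + 1 / (2 * σ)) * (2 * (e * ((Real.exp (2 * κ) - 1) * (1 - k) / 4 * (a * s ^ 2)))) :=
        mul_le_mul_of_nonneg_right h5 h6
    _ = _ := by ring

/-- **One term, second order.** -/
theorem fT_last_sq (he : 0 < e) (hκ : 0 < κ) {t : ℂ} (ht : 0 < t.re) {σ B1 : ℝ} (hσ : 1 ≤ σ)
    (h : rt t ≤ Real.exp (-(2 * (κ * σ)))) {q : ℂ} (hq : q = Qk κ t ^ (-(e : ℂ)))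
    (hB : ‖q‖ ≤ B1 * ‖1 + q‖) (hB1 : B1 < σ) (h0 : 1 + q ≠ 0) :
    ‖fT e κ t - 1 / (1 + q)‖ ≤ (1 + 1 / (2 * σ)) / (1 - B1 / σ) *
      (e * (Real.sinh κ ^ 2 * (‖t - 1‖ * ‖t + 1‖))) * ‖q‖ / ‖1 + q‖ ^ 3 := by
  have hσ0 : 0 < σ := by linarith
  have ho : 0 < ‖1 + q‖ := norm_pos_iff.2 h0
  have hq0 := norm_nonneg q
  have hqa : qa e κ t = ‖q‖ := by rw [hq]; rfl
  have hoo : oo e κ t = ‖1 + q‖ := by rw [hq]; rfl
  have hh := h1_le_inv hκ ht hσ h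
  have hh0 := h1_nonneg hκ ht
  have hB0 : 0 ≤ B1 := by
    by_contra hneg
    have : B1 * ‖1 + q‖ < 0 := mul_neg_of_neg_of_pos (lt_of_not_ge hneg) ho
    linarith
  have hd : 0 < 1 - B1 / σ := by
    have : B1 / σ < 1 := (div_lt_one hσ0).2 hB1
    linarith
  -- |q| h1 ≤ (B1/σ) |1+q|
  have h1a : ‖q‖ * h1 κ t ≤ B1 / σ * ‖1 + q‖ := by
    calc ‖q‖ * h1 κ t ≤ (B1 * ‖1 + q‖) * (1 / σ) := mul_le_mul hB hh hh0 (by positivity)
      _ = B1 / σ * ‖1 + q‖ := by ring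
  have h1b : (1 - B1 / σ) * ‖1 + q‖ ≤ ‖1 + q‖ - ‖q‖ * h1 κ t := by linarith
  have h1c : 0 < ‖1 + q‖ - ‖q‖ * h1 κ t := lt_of_lt_of_le (by positivity) h1b
  have hH2 := (H2 he hκ ht (by rw [hqa, hoo]; linarith)).1
  rw [hqa, hoo] at hH2
  have hH := H1 he hκ ht
  have hadd := fT_add he hκ ht
  rw [← hq] at hadd
  have e1 : fT e κ t - 1 / (1 + q) = -(q * (fT e κ (shf κ t) - fT e κ t)) / (1 + q) := by
    rw [eq_div_iff h0, sub_mul, div_mul_cancel₀ _ h0]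
    linear_combination hadd
  have e2 : ‖fT e κ t - 1 / (1 + q)‖ ≤ ‖q‖ * (h1 κ t * gR e κ t) / ‖1 + q‖ := by
    rw [e1, norm_div, norm_neg, norm_mul]
    exact div_le_div_of_nonneg_right (mul_le_mul_of_nonneg_left hH hq0) ho.le
  have hk := h1_mul_qa he hκ ht hσ h
  rw [hqa] at hk
  obtain ⟨Y, hY⟩ : ∃ Y, Y = e * (Real.sinh κ ^ 2 * (‖t - 1‖ * ‖t + 1‖)) := ⟨_, rfl⟩
  rw [← hY] at hk ⊢
  have hY0 : 0 ≤ Y := by rw [hY]; positivity
  have e3 : h1 κ t * gR e κ t ≤ (1 + 1 / (2 * σ)) / (1 - B1 / σ) * Y / ‖1 + q‖ ^ 2 := by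
    calc h1 κ t * gR e κ t ≤ h1 κ t * ((1 - ‖q‖ ^ 2) / (2 * ‖1 + q‖ * (‖1 + q‖ - ‖q‖ * h1 κ t))) :=
          mul_le_mul_of_nonneg_left hH2 hh0
      _ = h1 κ t * (1 - ‖q‖ ^ 2) / (2 * ‖1 + q‖ * (‖1 + q‖ - ‖q‖ * h1 κ t)) := by
          rw [mul_div_assoc]
      _ ≤ (2 * (1 + 1 / (2 * σ)) * Y) / (2 * ‖1 + q‖ * ((1 - B1 / σ) * ‖1 + q‖)) := by
          apply div_le_div₀ (by positivity) hk (by positivity)
          exact mul_le_mul_of_nonneg_left h1b (by positivity)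
      _ = _ := by
          have := hd.ne'
          field_simp
  calc ‖fT e κ t - 1 / (1 + q)‖ ≤ ‖q‖ * (h1 κ t * gR e κ t) / ‖1 + q‖ := e2
    _ ≤ ‖q‖ * ((1 + 1 / (2 * σ)) / (1 - B1 / σ) * Y / ‖1 + q‖ ^ 2) / ‖1 + q‖ := by
        apply div_le_div_of_nonneg_right _ ho.le
        exact mul_le_mul_of_nonneg_left e3 hq0
    _ = _ := by
        field_simp

end Pool.Agent.helper12.FF
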